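import Pool.Agent.W_2cf66e_PS.DefsT
import Pool.Agent.W_2cf66e_P.LpO
import Pool.Agent.W_2cf66e_P.LpT
import Pool.Agent.W_2cf66e_P.LpJ

/-!
# MP_2cf66e_nt, theorem PS, leaf T4: the small multiplier (helper78)
-/

set_option autoImplicit false

noncomputable section

open MeasureTheory Set Filter Topology MvPolynomial

namespace Pool.Agent.T59

open Pool.Agent.WSP

variable {n : ℕ}

/-- A quotient of polynomials without pole and without growth is bounded. -/
theorem bdd78 (A B : Polynomial ℝ) (hd : A.degree ≤ B.degree) (hB : ∀ u : ℝ, B.eval u ≠ 0) :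
    ∃ C : ℝ, 0 < C ∧ ∀ u : ℝ, |A.eval u| ≤ C * |B.eval u| := by
  obtain ⟨C₁, hC₁⟩ := (Polynomial.isBigO_cobounded_of_degree_le hd).bound
  rw [Metric.cobounded_eq_cocompact] at hC₁
  obtain ⟨K, hK, hKs⟩ := Filter.mem_cocompact.1 hC₁
  obtain ⟨C₂, hC₂⟩ := hK.exists_bound_of_continuousOn
    (f := fun u => A.eval u / B.eval u)
    (A.continuous.continuousOn.div B.continuous.continuousOn fun u _ => hB u)
  refine ⟨max (max C₁ C₂) 1, lt_of_lt_of_le one_pos (le_max_right _ _), fun u => ?_⟩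
  have hBu : 0 < |B.eval u| := abs_pos.2 (hB u)
  by_cases hu : u ∈ K
  · have h1 := hC₂ u hu
    rw [Real.norm_eq_abs, abs_div, div_le_iff₀ hBu] at h1
    exact h1.trans (mul_le_mul_of_nonneg_right
      ((le_max_right _ _).trans (le_max_left _ _)) hBu.le)
  · have h1 : ‖A.eval u‖ ≤ C₁ * ‖B.eval u‖ := hKs hu
    rw [Real.norm_eq_abs, Real.norm_eq_abs] at h1
    exact h1.trans (mul_le_mul_of_nonneg_right
      ((le_max_left _ _).trans (le_max_left _ _)) hBu.le)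

theorem DF_sum78 {κ : Type} [Countable κ] {α : Type} (s : Finset α) {f : α → (κ → ℝ) → ℝ}
    (hf : ∀ a, DF (f a)) : DF (fun v => ∑ a ∈ s, f a v) := by
  classical
  induction s using Finset.induction_on with
  | empty => exact (DF.const 0).congr78 fun v => by simp
  | insert a s ha ih =>
    refine ((hf a).add ih).congr78 fun v => ?_
    rw [Finset.sum_insert ha]

theorem DF_Pf78 {κ : Type} [Countable κ] (s : ℕ) (p : ℕ → MvPolynomial (Fin n) ℚ)
    {x : Fin n → (κ → ℝ) → ℝ} (hx : ∀ j, DF (x j)) {u : (κ → ℝ) → ℝ} (hu : DF u) :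
    DF (fun v => Pf s p (fun j => x j v) (u v)) :=
  DF_sum78 _ fun i => (DF.aeval31 (p i) x hx).mul (hu.pow i)

theorem DF_Qf78 {κ : Type} [Countable κ] (s : ℕ) (q : ℕ → MvPolynomial (Fin n) ℚ)
    {x : Fin n → (κ → ℝ) → ℝ} (hx : ∀ j, DF (x j)) {u : (κ → ℝ) → ℝ} (hu : DF u) :
    DF (fun v => Qf s q (fun j => x j v) (u v)) :=
  DF_sum78 _ fun i => (DF.aeval31 (q i) x hx).mul (hu.pow i)

theorem Pf_cont78 (s : ℕ) (p : ℕ → MvPolynomial (Fin n) ℚ) (u : ℝ) :
    Continuous fun x : Fin n → ℝ => Pf s p x u :=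
  continuous_finsetSum _ fun i _ => (cont_aeval3 (p i)).mul continuous_const

theorem Qf_cont78 (s : ℕ) (q : ℕ → MvPolynomial (Fin n) ℚ) (u : ℝ) :
    Continuous fun x : Fin n → ℝ => Qf s q x u :=
  continuous_finsetSum _ fun i _ => (cont_aeval3 (q i)).mul continuous_const

theorem RF_cont78 {f : (Fin n → ℝ) → ℝ} (hf : RF f) : Continuous f := by
  obtain ⟨P, Q, hQ, h⟩ := hf
  have h1 : f = fun z => (aeval z P : ℝ) / aeval z Q := funext h
  rw [h1]
  exact (cont_aeval3 P).div (cont_aeval3 Q) fun z => (hQ z).ne'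

/-- The admissible pairs. -/
def Sm78 (s : ℕ) (p q : ℕ → MvPolynomial (Fin n) ℚ) : Set (Fin (n + 1) → ℝ) :=
  {z | ∀ u : ℝ, (2 * z 0 * u ^ 2 * Pf s p (tl z) u) ^ 2 ≤ (Qf s q (tl z) u) ^ 2}

theorem Sm_DS78 (s : ℕ) (p q : ℕ → MvPolynomial (Fin n) ℚ) : DS (Sm78 s p q) := by
  have hx : ∀ j : Fin n, DF (fun v : Option (Fin (n + 1)) → ℝ => v (some j.succ)) := fun j =>
    DF.var _
  have hu : DF (fun v : Option (Fin (n + 1)) → ℝ => v none) := DF.var _
  have h1 : DF (fun v : Option (Fin (n + 1)) → ℝ =>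
      (2 * v (some 0) * (v none) ^ 2 * Pf s p (fun j => v (some j.succ)) (v none)) ^ 2) := by
    refine (((((DF.const 2).mul (DF.var (some 0))).mul (hu.pow 2)).mul
      (DF_Pf78 s p hx hu)).pow 2).congr78 fun v => ?_
    push_cast
    rfl
  have h2 : DF (fun v : Option (Fin (n + 1)) → ℝ =>
      (Qf s q (fun j => v (some j.succ)) (v none)) ^ 2) := (DF_Qf78 s q hx hu).pow 2
  exact (h1.le h2).all.congr fun z => Iff.rfl

theorem Bad_DS78 (s : ℕ) (q : ℕ → MvPolynomial (Fin n) ℚ) :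
    DS {x : Fin n → ℝ | ∃ u : ℝ, Qf s q x u = 0} := by
  have hx : ∀ j : Fin n, DF (fun v : Option (Fin n) → ℝ => v (some j)) := fun j =>
    DF.var _
  have hu : DF (fun v : Option (Fin n) → ℝ => v none) := DF.var _
  refine ((DF_Qf78 s q hx hu).eq (DF.const 0)).not.all.not.congr fun x => ?_
  simp only [not_forall, not_not, Int.cast_zero]
  exact Iff.rfl

/-- Small values are admissible. -/
theorem Sm_ex78 (s : ℕ) (p q : ℕ → MvPolynomial (Fin n) ℚ) (x : Fin n → ℝ)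
    (hq : (aeval x (q (s + 2)) : ℝ) ≠ 0) (h : ∀ u : ℝ, Qf s q x u ≠ 0) :
    ∃ t₀ : ℝ, 0 < t₀ ∧ ∀ t : ℝ, 0 < t → t < t₀ →
      (Fin.cons t x : Fin (n + 1) → ℝ) ∈ Sm78 s p q := by
  set A : Polynomial ℝ := ∑ i ∈ Finset.range (s + 1),
    Polynomial.C (aeval x (p i) : ℝ) * Polynomial.X ^ (i + 2) with hA
  set B : Polynomial ℝ := ∑ i ∈ Finset.range (s + 3),
    Polynomial.C (aeval x (q i) : ℝ) * Polynomial.X ^ i with hB
  have hAe : ∀ u : ℝ, A.eval u = u ^ 2 * Pf s p x u := by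
    intro u
    rw [hA, Polynomial.eval_finsetSum]
    unfold Pf
    rw [Finset.mul_sum]
    refine Finset.sum_congr rfl fun i _ => ?_
    simp only [Polynomial.eval_mul, Polynomial.eval_C, Polynomial.eval_pow, Polynomial.eval_X]
    ring
  have hBe : ∀ u : ℝ, B.eval u = Qf s q x u := by
    intro u
    rw [hB, Polynomial.eval_finsetSum]
    unfold Qf
    refine Finset.sum_congr rfl fun i _ => ?_
    simp only [Polynomial.eval_mul, Polynomial.eval_C, Polynomial.eval_pow, Polynomial.eval_X]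
  have hAd : A.degree ≤ ((s + 2 : ℕ) : WithBot ℕ) := by
    refine (Polynomial.degree_sum_le _ _).trans (Finset.sup_le fun i hi => ?_)
    refine (Polynomial.degree_C_mul_X_pow_le _ _).trans ?_
    have := Finset.mem_range.1 hi
    exact_mod_cast (by omega : i + 2 ≤ s + 2)
  have hBd : ((s + 2 : ℕ) : WithBot ℕ) ≤ B.degree := by
    refine Polynomial.le_degree_of_ne_zero ?_
    rw [hB, Polynomial.finsetSum_coeff, Finset.sum_eq_single (s + 2)]
    · rw [Polynomial.coeff_C_mul_X_pow, if_pos rfl]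
      exact hq
    · intro i _ hi
      rw [Polynomial.coeff_C_mul_X_pow, if_neg (Ne.symm hi)]
    · intro hi
      exact absurd (Finset.mem_range.2 (by omega)) hi
  obtain ⟨C, hC, hCb⟩ := bdd78 A B (hAd.trans hBd) fun u => by
    rw [hBe]
    exact h u
  refine ⟨1 / (2 * C), by positivity, fun t h0 h1 u => ?_⟩
  have htl : tl (Fin.cons t x : Fin (n + 1) → ℝ) = x := by
    funext j
    simp [tl]
  have h0' : (Fin.cons t x : Fin (n + 1) → ℝ) 0 = t := by simp
  rw [h0', htl, sq_le_sq]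
  have h2 := hCb u
  rw [hAe, hBe] at h2
  have h3 : 2 * t * C ≤ 1 := by
    rw [lt_div_iff₀ (by positivity)] at h1
    linarith
  have h4 : |2 * t * u ^ 2 * Pf s p x u| = 2 * t * |u ^ 2 * Pf s p x u| := by
    rw [mul_assoc (2 * t), abs_mul, abs_of_pos (by positivity : (0 : ℝ) < 2 * t)]
  rw [h4]
  have h5 := mul_le_mul_of_nonneg_left h2 (by positivity : (0 : ℝ) ≤ 2 * t)
  have h6 := mul_le_mul_of_nonneg_right h3 (abs_nonneg (Qf s q x u))
  linarith

theorem mu_lem (s : ℕ) (p q : ℕ → MvPolynomial (Fin n) ℚ) (hq : q (s + 2) ≠ 0)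
    (h : ∀ᵐ x : Fin n → ℝ, ∀ u : ℝ, Qf s q x u ≠ 0) :
    ∃ μ : (Fin n → ℝ) → ℝ, RF μ ∧ (∀ x, 0 ≤ μ x) ∧ (∀ᵐ x, 0 < μ x) ∧
      (∀ x, μ x ≠ 0 → ∀ u : ℝ, Qf s q x u ≠ 0) ∧
      ∀ (x : Fin n → ℝ) (u : ℝ), 2 * μ x * u ^ 2 * |Pf s p x u| ≤ |Qf s q x u| := by
  -- the multiplier
  obtain ⟨ε, hε, hε'⟩ := eps_lem (Sm78 s p q) (DS_isSA (Sm_DS78 s p q)) (by
    filter_upwards [h, ae_ne3 (q (s + 2)) hq] with x hx hxq
    exact Sm_ex78 s p q x hxq hx)
  have hεc := RF_cont78 hε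
  have hε0 : ∀ x, 0 ≤ ε x := cont_nonneg6 hεc (by
    filter_upwards [hε'] with x hx
    exact hx.1.le)
  have hε1 : ∀ (x : Fin n → ℝ) (u : ℝ), 2 * ε x * u ^ 2 * |Pf s p x u| ≤ |Qf s q x u| := by
    intro x u
    have h1 := cont_nonneg6 (f := fun x : Fin n → ℝ =>
      |Qf s q x u| - 2 * ε x * u ^ 2 * |Pf s p x u|)
      ((Qf_cont78 s q u).abs.sub (((continuous_const.mul hεc).mul continuous_const).mul
        (Pf_cont78 s p u).abs)) (by
      filter_upwards [hε'] with y hy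
      have h2 := hy.2 u
      have htl : tl (Fin.cons (ε y) y : Fin (n + 1) → ℝ) = y := by
        funext j
        simp [tl]
      have h0' : (Fin.cons (ε y) y : Fin (n + 1) → ℝ) 0 = ε y := by simp
      rw [h0', htl, sq_le_sq, abs_mul,
        abs_of_nonneg (by have := hy.1; positivity : (0 : ℝ) ≤ 2 * ε y * u ^ 2)] at h2
      linarith) x
    linarith
  -- the bad set
  obtain ⟨b, hb, hb1, -⟩ := sa_open57 {x : Fin n → ℝ | ∃ u : ℝ, Qf s q x u = 0}
    (DS_isSA (Bad_DS78 s q))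
  have hbad : ({x : Fin n → ℝ | ∃ u : ℝ, Qf s q x u = 0} ∩
      {z | (aeval z b : ℝ) ≠ 0}) = ∅ := by
    refine hb1.eq_empty_of_measure_zero (μ := volume) (measure_mono_null inter_subset_left ?_)
    rw [ae_iff] at h
    refine measure_mono_null ?_ h
    intro x hx
    obtain ⟨u, hu⟩ := hx
    show ¬ ∀ u : ℝ, Qf s q x u ≠ 0
    exact fun hcon => hcon u hu
  have hgood : ∀ x : Fin n → ℝ, (aeval x b : ℝ) ≠ 0 → ∀ u : ℝ, Qf s q x u ≠ 0 := by
    intro x hx u hu
    have : x ∈ ({x : Fin n → ℝ | ∃ u : ℝ, Qf s q x u = 0} ∩ {z | (aeval z b : ℝ) ≠ 0}) :=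
      ⟨⟨u, hu⟩, hx⟩
    rw [hbad] at this
    exact this
  have hbR : RF (fun x : Fin n → ℝ => (aeval x b : ℝ)) := RF.aeval35 b
  have hpos : ∀ x : Fin n → ℝ, 0 < 1 + (aeval x b : ℝ) ^ 2 := fun x => by positivity
  refine ⟨fun x => ε x * ((aeval x b : ℝ) ^ 2 / (1 + (aeval x b : ℝ) ^ 2)), ?_, ?_, ?_, ?_, ?_⟩
  · refine hε.mul ((hbR.pow 2).div ?_ hpos)
    exact ((RF.const 1).add (hbR.pow 2)).congr fun z => by simp
  · intro x
    have := hε0 x
    have := hpos x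
    positivity
  · filter_upwards [hε', ae_ne3 b hb] with x hx hbx
    have h1 := hx.1
    have h2 := hpos x
    have h3 : 0 < (aeval x b : ℝ) ^ 2 := by positivity
    positivity
  · intro x hx
    refine hgood x fun h0 => hx ?_
    simp only [h0]
    simp
  · intro x u
    refine le_trans ?_ (hε1 x u)
    refine mul_le_mul_of_nonneg_right (mul_le_mul_of_nonneg_right ?_ (sq_nonneg u))
      (abs_nonneg _)
    have h1 : (aeval x b : ℝ) ^ 2 / (1 + (aeval x b : ℝ) ^ 2) ≤ 1 := by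
      rw [div_le_one (hpos x)]
      linarith
    have h2 := mul_le_mul_of_nonneg_left h1 (hε0 x)
    linarith

end Pool.Agent.T59
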