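import Pool.Agent.W_2cf66e_PS.DefsT
import Pool.Agent.W_2cf66e_h23.LfC
import Pool.Agent.W_2cf66e_h23.LfL
import Pool.Agent.W_2cf66e_h23.LfG

/-!
# MP_2cf66e_nt, theorem PS, leaf T5: the transformed function (helper65)
-/

set_option autoImplicit false

noncomputable section

open MeasureTheory Set Filter Topology MvPolynomial

namespace Pool.Agent.T59

open Pool.Agent.WSP

variable {n : ℕ}

namespace P65

/-- The denominator. -/
def DD (s : ℕ) (q : ℕ → MvPolynomial (Fin n) ℚ) (a κ : ℝ) (x : Fin n → ℝ) (w : ℝ) : ℝ :=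
  1 + ∑ i ∈ Finset.range (s + 2), (aeval x (q i) : ℝ) *
    (a ^ (2 * (s + 1 - i) + 1) * κ ^ (s + 2 - i) * w ^ (s + 2 - i))

/-- The numerator. -/
def NN (s : ℕ) (p : ℕ → MvPolynomial (Fin n) ℚ) (a κ : ℝ) (x : Fin n → ℝ) (w : ℝ) : ℝ :=
  ∑ i ∈ Finset.range (s + 1), (aeval x (p i) : ℝ) *
    (a ^ (2 * (s - i) + 1) * κ ^ (s + 1 - i) * w ^ (s - i))

lemma DD_eq (s : ℕ) (q : ℕ → MvPolynomial (Fin n) ℚ) (κ : ℝ) (x : Fin n → ℝ) (w : ℝ)
    (ha : (aeval x (q (s + 2)) : ℝ) ≠ 0) (hk : κ ≠ 0) (hw : w ≠ 0) :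
    Qf s q x (1 / (κ * (aeval x (q (s + 2)) : ℝ) ^ 2 * w)) *
      (κ * (aeval x (q (s + 2)) : ℝ) ^ 2 * w) ^ (s + 2) =
      (aeval x (q (s + 2)) : ℝ) * DD s q (aeval x (q (s + 2))) κ x w := by
  set a : ℝ := aeval x (q (s + 2)) with hadef
  have hl : κ * a ^ 2 * w ≠ 0 := mul_ne_zero (mul_ne_zero hk (pow_ne_zero 2 ha)) hw
  rw [Qf, DD, Finset.sum_range_succ, add_mul, Finset.sum_mul, mul_add, mul_one, Finset.mul_sum,
    ← hadef, add_comm]
  congr 1
  · rw [one_div, inv_pow, mul_assoc, inv_mul_cancel₀ (pow_ne_zero _ hl), mul_one]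
  · refine Finset.sum_congr rfl fun i hi => ?_
    have hi' : i < s + 2 := Finset.mem_range.1 hi
    obtain ⟨j, hj⟩ : ∃ j, s + 2 = i + (j + 1) := ⟨s + 1 - i, by omega⟩
    have h1 : s + 1 - i = j := by omega
    have h2 : s + 2 - i = j + 1 := by omega
    rw [h1, h2, hj, pow_add _ i (j + 1), one_div, inv_pow]
    have h3 : (κ * a ^ 2 * w) ^ i ≠ 0 := pow_ne_zero _ hl
    field_simp
    ring

lemma NN_eq (s : ℕ) (p : ℕ → MvPolynomial (Fin n) ℚ) (a κ : ℝ) (x : Fin n → ℝ) (w : ℝ)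
    (ha : a ≠ 0) (hk : κ ≠ 0) (hw : w ≠ 0) :
    Pf s p x (1 / (κ * a ^ 2 * w)) * (κ * a ^ 2 * w) ^ (s + 2) =
      a * NN s p a κ x w * (κ * a ^ 2 * w ^ 2) := by
  have hl : κ * a ^ 2 * w ≠ 0 := mul_ne_zero (mul_ne_zero hk (pow_ne_zero 2 ha)) hw
  rw [Pf, NN, Finset.sum_mul, Finset.mul_sum, Finset.sum_mul]
  refine Finset.sum_congr rfl fun i hi => ?_
  have hi' : i < s + 1 := Finset.mem_range.1 hi
  obtain ⟨j, hj⟩ : ∃ j, s = i + j := ⟨s - i, by omega⟩
  have h1 : s - i = j := by omega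
  have h2 : s + 1 - i = j + 1 := by omega
  have h4 : s + 2 = i + (j + 2) := by omega
  rw [h1, h2, h4, pow_add _ i (j + 2), one_div, inv_pow]
  have h3 : (κ * a ^ 2 * w) ^ i ≠ 0 := pow_ne_zero _ hl
  field_simp
  ring

end P65

open P65

theorem trans_form (s : ℕ) (p q : ℕ → MvPolynomial (Fin n) ℚ) (hq : q (s + 2) ≠ 0)
    (μ : (Fin n → ℝ) → ℝ) (hμ : RF μ) (h0 : ∀ x, 0 ≤ μ x) (h1 : ∀ᵐ x, 0 < μ x)
    (h2 : ∀ x, μ x ≠ 0 → ∀ u : ℝ, Qf s q x u ≠ 0)
    (h3 : ∀ (x : Fin n → ℝ) (u : ℝ), 2 * μ x * u ^ 2 * |Pf s p x u| ≤ |Qf s q x u|) :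
    ∃ (G : (Fin (n + 1) → ℝ) → ℝ) (lam : (Fin n → ℝ) → ℝ), RF G ∧ RF lam ∧
      (∀ z, |G z| ≤ 1 / 2) ∧ (∀ᵐ x, 0 < lam x) ∧
      ∀ (x : Fin n → ℝ) (w : ℝ), 0 < lam x → w ≠ 0 → G (Fin.cons w x) =
        (Pf s p x (1 / (lam x * w)) / Qf s q x (1 / (lam x * w))) / (lam x * w ^ 2) := by
  -- the data
  set a : (Fin n → ℝ) → ℝ := fun x => aeval x (q (s + 2)) with hadef
  set κ : (Fin n → ℝ) → ℝ := fun x => μ x / (1 + a x ^ 2) ^ 2 with hκdef
  set lam : (Fin n → ℝ) → ℝ := fun x => κ x * a x ^ 2 with hldef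
  have hden : ∀ x, 0 < (1 + a x ^ 2) ^ 2 := fun x => by positivity
  have hRa : RF a := RF.aeval35 _
  have hRd : RF fun x => (1 + a x ^ 2) ^ 2 := by
    have h4 := (((RF.const (ι := Fin n) 1).add (hRa.pow 2)).pow 2)
    exact h4.congr fun x => by simp
  have hRκ : RF κ := hμ.div hRd hden
  have hRl : RF lam := hRκ.mul (hRa.pow 2)
  have hκ0 : ∀ x, 0 ≤ κ x := fun x => div_nonneg (h0 x) (hden x).le
  have hlμ : ∀ x, lam x ≤ μ x := by
    intro x
    have h4 : lam x = μ x * (a x ^ 2 / (1 + a x ^ 2) ^ 2) := by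
      rw [hldef, hκdef]
      ring
    rw [h4]
    refine mul_le_of_le_one_right (h0 x) ?_
    rw [div_le_one (hden x)]
    nlinarith [sq_nonneg (a x), sq_nonneg (a x ^ 2)]
  -- the denominator is positive
  have hpos : ∀ x, 0 < lam x → a x ≠ 0 ∧ κ x ≠ 0 ∧ μ x ≠ 0 := by
    intro x hx
    refine ⟨fun h => ?_, fun h => ?_, fun h => ?_⟩
    · rw [hldef] at hx
      simp [h] at hx
    · rw [hldef] at hx
      simp [h] at hx
    · have h4 : κ x = 0 := by
        rw [hκdef]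
        simp [h]
      rw [hldef] at hx
      simp [h4] at hx
  have hDcont : ∀ x, Continuous fun w : ℝ => DD s q (a x) (κ x) x w := fun x => by
    unfold DD
    fun_prop
  have hNcont : ∀ x, Continuous fun w : ℝ => NN s p (a x) (κ x) x w := fun x => by
    unfold NN
    fun_prop
  have hD0 : ∀ x, DD s q (a x) (κ x) x 0 = 1 := fun x => by
    unfold DD
    rw [Finset.sum_eq_zero, add_zero]
    intro i hi
    have hi' : i < s + 2 := Finset.mem_range.1 hi
    rw [zero_pow (by omega : s + 2 - i ≠ 0)]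
    ring
  have hdeg : ∀ x, ¬ 0 < lam x → (∀ w, DD s q (a x) (κ x) x w = 1) ∧
      ∀ w, NN s p (a x) (κ x) x w = 0 := by
    intro x hx
    have h4 : a x = 0 ∨ κ x = 0 := by
      by_contra hc
      push Not at hc
      refine hx (mul_pos ((hκ0 x).lt_of_ne' hc.2) ?_)
      have := hc.1
      positivity
    constructor
    · intro w
      unfold DD
      rw [Finset.sum_eq_zero, add_zero]
      intro i hi
      have hi' : i < s + 2 := Finset.mem_range.1 hi
      rcases h4 with h4 | h4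
      · rw [h4, zero_pow (by omega : 2 * (s + 1 - i) + 1 ≠ 0)]
        ring
      · rw [h4, zero_pow (by omega : s + 2 - i ≠ 0)]
        ring
    · intro w
      unfold NN
      refine Finset.sum_eq_zero fun i hi => ?_
      have hi' : i < s + 1 := Finset.mem_range.1 hi
      rcases h4 with h4 | h4
      · rw [h4, zero_pow (by omega : 2 * (s - i) + 1 ≠ 0)]
        ring
      · rw [h4, zero_pow (by omega : s + 1 - i ≠ 0)]
        ring
  have hDne : ∀ x, 0 < lam x → ∀ w, DD s q (a x) (κ x) x w ≠ 0 := by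
    intro x hx w
    obtain ⟨ha, hk, hm⟩ := hpos x hx
    by_cases hw : w = 0
    · rw [hw, hD0]
      exact one_ne_zero
    · intro hc
      have h4 := DD_eq s q (κ x) x w ha hk hw
      rw [show (aeval x (q (s + 2)) : ℝ) = a x from rfl, hc, mul_zero] at h4
      rcases mul_eq_zero.1 h4 with h5 | h5
      · exact h2 x hm _ h5
      · exact (pow_ne_zero _ (mul_ne_zero (mul_ne_zero hk (pow_ne_zero 2 ha)) hw)) h5
  have hDpos : ∀ x w, 0 < DD s q (a x) (κ x) x w := by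
    intro x w
    by_cases hx : 0 < lam x
    · by_contra hc
      have h4 : DD s q (a x) (κ x) x w < 0 := lt_of_le_of_ne (not_lt.1 hc) (hDne x hx w)
      have h5 : (0 : ℝ) ∈ Set.range fun w : ℝ => DD s q (a x) (κ x) x w := by
        refine mem_range_of_exists_le_of_exists_ge (hDcont x) ⟨w, h4.le⟩ ⟨0, ?_⟩
        rw [hD0]
        exact zero_le_one
      obtain ⟨w', hw'⟩ := h5
      exact hDne x hx w' hw'
    · rw [(hdeg x hx).1]
      exact one_pos
  -- the formula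
  have hform : ∀ x w, 0 < lam x → w ≠ 0 → NN s p (a x) (κ x) x w / DD s q (a x) (κ x) x w =
      (Pf s p x (1 / (lam x * w)) / Qf s q x (1 / (lam x * w))) / (lam x * w ^ 2) := by
    intro x w hx hw
    obtain ⟨ha, hk, hm⟩ := hpos x hx
    have h4 := DD_eq s q (κ x) x w ha hk hw
    have h5 := NN_eq s p (a x) (κ x) x w ha hk hw
    rw [show (aeval x (q (s + 2)) : ℝ) = a x from rfl] at h4
    have hl : κ x * a x ^ 2 * w ≠ 0 := mul_ne_zero (mul_ne_zero hk (pow_ne_zero 2 ha)) hw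
    have h6 : (κ x * a x ^ 2 * w) ^ (s + 2) ≠ 0 := pow_ne_zero _ hl
    have h7 : Qf s q x (1 / (κ x * a x ^ 2 * w)) ≠ 0 := h2 x hm _
    have h8 := (hDpos x w).ne'
    have h9 : κ x * a x ^ 2 * w ^ 2 ≠ 0 :=
      mul_ne_zero (mul_ne_zero hk (pow_ne_zero 2 ha)) (pow_ne_zero 2 hw)
    show NN s p (a x) (κ x) x w / DD s q (a x) (κ x) x w =
      (Pf s p x (1 / (κ x * a x ^ 2 * w)) / Qf s q x (1 / (κ x * a x ^ 2 * w))) /
        (κ x * a x ^ 2 * w ^ 2)
    rw [div_div, div_eq_div_iff h8 (mul_ne_zero h7 h9)]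
    have h10 : a x * (κ x * a x ^ 2 * w) ^ (s + 2) ≠ 0 := mul_ne_zero ha h6
    refine mul_left_cancel₀ h10 ?_
    calc a x * (κ x * a x ^ 2 * w) ^ (s + 2) * (NN s p (a x) (κ x) x w *
          (Qf s q x (1 / (κ x * a x ^ 2 * w)) * (κ x * a x ^ 2 * w ^ 2)))
        = (Qf s q x (1 / (κ x * a x ^ 2 * w)) * (κ x * a x ^ 2 * w) ^ (s + 2)) *
          (a x * NN s p (a x) (κ x) x w * (κ x * a x ^ 2 * w ^ 2)) := by ring
      _ = (a x * DD s q (a x) (κ x) x w) *
          (Pf s p x (1 / (κ x * a x ^ 2 * w)) * (κ x * a x ^ 2 * w) ^ (s + 2)) := by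
        rw [h4, h5]
      _ = a x * (κ x * a x ^ 2 * w) ^ (s + 2) * (Pf s p x (1 / (κ x * a x ^ 2 * w)) *
          DD s q (a x) (κ x) x w) := by ring
  refine ⟨fun z => NN s p (a (tl z)) (κ (tl z)) (tl z) (z 0) /
    DD s q (a (tl z)) (κ (tl z)) (tl z) (z 0), lam, ?_, hRl, ?_, ?_, ?_⟩
  · -- rational
    have hz : RF fun z : Fin (n + 1) → ℝ => z 0 := RF.var 0
    have ha' : RF fun z : Fin (n + 1) → ℝ => a (tl z) := RF_tl78 hRa
    have hk' : RF fun z : Fin (n + 1) → ℝ => κ (tl z) := RF_tl78 hRκ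
    refine RF.div ?_ ?_ fun z => hDpos _ _
    · unfold NN
      exact RF.sum _ fun i => (RF_tl78 (RF.aeval35 (p i))).mul
        (((ha'.pow _).mul (hk'.pow _)).mul (hz.pow _))
    · unfold DD
      have h4 := (RF.const (ι := Fin (n + 1)) 1).add (RF.sum (Finset.range (s + 2)) fun i =>
        (RF_tl78 (RF.aeval35 (q i))).mul (((ha'.pow (2 * (s + 1 - i) + 1)).mul
          (hk'.pow (s + 2 - i))).mul (hz.pow (s + 2 - i))))
      exact h4.congr fun z => by simp
  · -- bounded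
    intro z
    set x : Fin n → ℝ := tl z with hx
    show |NN s p (a x) (κ x) x (z 0) / DD s q (a x) (κ x) x (z 0)| ≤ 1 / 2
    by_cases hl : 0 < lam x
    · have hcont : Continuous fun w : ℝ => |NN s p (a x) (κ x) x w / DD s q (a x) (κ x) x w| :=
        ((hNcont x).div (hDcont x) fun w => (hDpos x w).ne').abs
      have hcl : IsClosed {w : ℝ | |NN s p (a x) (κ x) x w / DD s q (a x) (κ x) x w| ≤ 1 / 2} :=
        isClosed_le hcont continuous_const
      have hsub : {w : ℝ | w ≠ 0} ⊆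
          {w : ℝ | |NN s p (a x) (κ x) x w / DD s q (a x) (κ x) x w| ≤ 1 / 2} := by
        intro w hw
        show |NN s p (a x) (κ x) x w / DD s q (a x) (κ x) x w| ≤ 1 / 2
        rw [hform x w hl hw]
        set u : ℝ := 1 / (lam x * w) with hu
        have hQ : 0 < |Qf s q x u| := abs_pos.2 (h2 x (hpos x hl).2.2 u)
        have hw' : w ≠ 0 := hw
        have hw2 : 0 < lam x * w ^ 2 := by positivity
        have e1 : 1 / (lam x * w ^ 2) = lam x * u ^ 2 := by
          rw [hu]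
          field_simp
        rw [div_div, abs_div, abs_mul, abs_of_pos hw2, div_le_iff₀ (mul_pos hQ hw2)]
        have h4 := h3 x u
        have h5 : 2 * lam x * u ^ 2 * |Pf s p x u| ≤ |Qf s q x u| := by
          refine le_trans ?_ h4
          have h6 := mul_le_mul_of_nonneg_right (hlμ x)
            (mul_nonneg (sq_nonneg u) (abs_nonneg (Pf s p x u)))
          linarith
        have h7 : lam x * u ^ 2 * (lam x * w ^ 2) = 1 := by
          rw [← e1]
          field_simp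
        have h8 := mul_le_mul_of_nonneg_right h5 hw2.le
        have h9 : 2 * lam x * u ^ 2 * |Pf s p x u| * (lam x * w ^ 2) = 2 * |Pf s p x u| := by
          calc 2 * lam x * u ^ 2 * |Pf s p x u| * (lam x * w ^ 2)
              = 2 * |Pf s p x u| * (lam x * u ^ 2 * (lam x * w ^ 2)) := by ring
            _ = 2 * |Pf s p x u| := by rw [h7, mul_one]
        rw [h9] at h8
        linarith
      have hdense : Dense {w : ℝ | w ≠ 0} := by
        have h4 : {w : ℝ | w ≠ 0} = ({0}ᶜ : Set ℝ) := rfl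
        rw [h4]
        exact dense_compl_singleton 0
      have h4 := hcl.closure_subset_iff.2 hsub
      rw [hdense.closure_eq] at h4
      exact h4 (Set.mem_univ (z 0))
    · rw [(hdeg x hl).2, zero_div, abs_zero]
      norm_num
  · -- positive almost everywhere
    filter_upwards [h1, LfG.ae_ne _ hq] with x hx hx'
    have h4 : a x ≠ 0 := hx'
    have h5 : 0 < κ x := div_pos hx (hden x)
    show 0 < κ x * a x ^ 2
    positivity
  · intro x w hx hw
    simp only [tl_cons, Fin.cons_zero]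
    exact hform x w hx hw

end Pool.Agent.T59
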