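import Pool.Agent.W_2cf66e_P.DefsP

/-!
# MP_2cf66e_nt, theorem PS, leaf T6: the substitution in one fibre and Tonelli (helper57)
-/

set_option autoImplicit false

noncomputable section

open MeasureTheory Set Filter Topology MvPolynomial

namespace Pool.Agent.T59

open Pool.Agent.WSP

theorem inv_der57 {c : ℝ} (hc : 0 < c) : ∀ x ∈ ({0}ᶜ : Set ℝ),
    HasDerivWithinAt (fun w : ℝ => 1 / (c * w)) (-(c / (c * x) ^ 2)) ({0}ᶜ : Set ℝ) x := by
  intro x hx
  have hx0 : x ≠ 0 := hx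
  have h1 : HasDerivAt (fun w : ℝ => c * w) c x := by
    simpa using (hasDerivAt_id x).const_mul c
  have h2 := h1.inv (mul_ne_zero hc.ne' hx0)
  have h3 : (fun w : ℝ => 1 / (c * w)) = fun w : ℝ => (c * w)⁻¹ := by
    funext w
    rw [one_div]
  rw [h3]
  have h4 : -(c / (c * x) ^ 2) = -c / (c * x) ^ 2 := by ring
  rw [h4]
  exact h2.hasDerivWithinAt

theorem inv_inj57 {c : ℝ} (hc : 0 < c) :
    InjOn (fun w : ℝ => 1 / (c * w)) ({0}ᶜ : Set ℝ) := by
  intro x hx y hy hxy
  have hx0 : x ≠ 0 := hx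
  have hy0 : y ≠ 0 := hy
  simp only at hxy
  rw [one_div, one_div, inv_inj] at hxy
  exact mul_left_cancel₀ hc.ne' hxy

theorem inv_img57 {c : ℝ} (hc : 0 < c) :
    (fun w : ℝ => 1 / (c * w)) '' ({0}ᶜ : Set ℝ) = ({0}ᶜ : Set ℝ) := by
  ext u
  constructor
  · rintro ⟨w, hw, rfl⟩
    have hw0 : w ≠ 0 := hw
    exact one_div_ne_zero (mul_ne_zero hc.ne' hw0)
  · intro hu0
    have hu1 : u ≠ 0 := hu0
    refine ⟨1 / (c * u), one_div_ne_zero (mul_ne_zero hc.ne' hu1), ?_⟩
    simp only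
    field_simp

theorem inv_fib57 {c : ℝ} (hc : 0 < c) (f : ℝ → ℝ) :
    (Integrable f → Integrable fun w : ℝ => f (1 / (c * w)) / (c * w ^ 2)) ∧
      ∫ w : ℝ, f (1 / (c * w)) / (c * w ^ 2) = ∫ u, f u := by
  have hs : MeasurableSet ({0}ᶜ : Set ℝ) := (measurableSet_singleton 0).compl
  have hu : ({0}ᶜ : Set ℝ) =ᵐ[volume] univ := by
    rw [ae_eq_univ, compl_compl]
    exact measure_singleton 0
  have hd := inv_der57 hc
  have hi := inv_inj57 hc
  have him := inv_img57 hc
  have he : ∀ w : ℝ, w ∈ ({0}ᶜ : Set ℝ) →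
      |(-(c / (c * w) ^ 2))| • f (1 / (c * w)) = f (1 / (c * w)) / (c * w ^ 2) := by
    intro w hw
    have hw0 : w ≠ 0 := hw
    rw [abs_neg, abs_of_pos (by positivity), smul_eq_mul]
    field_simp
  constructor
  · intro hf
    have h1 : IntegrableOn f ((fun w : ℝ => 1 / (c * w)) '' ({0}ᶜ : Set ℝ)) := by
      rw [him]
      exact hf.integrableOn
    have h2 := (integrableOn_image_iff_integrableOn_abs_deriv_smul hs hd hi f).1 h1
    have h3 : IntegrableOn (fun w : ℝ => f (1 / (c * w)) / (c * w ^ 2)) ({0}ᶜ : Set ℝ) :=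
      h2.congr_fun he hs
    rwa [IntegrableOn, Measure.restrict_congr_set hu, Measure.restrict_univ] at h3
  · have h1 := integral_image_eq_integral_abs_deriv_smul hs hd hi f
    rw [him, setIntegral_congr_fun hs he, Measure.restrict_congr_set hu,
      Measure.restrict_univ] at h1
    exact h1.symm

/-- The substitution `u = 1 / (lam x * w)` in the coordinate `0`. -/
theorem subst57 {n : ℕ} (F : (Fin (n + 1) → ℝ) → ℝ) (hF : Measurable F) (hi : Integrable F)
    (lam : (Fin n → ℝ) → ℝ) (hl : Measurable lam) (h0 : ∀ᵐ x, 0 < lam x) :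
    Integrable (fun z : Fin (n + 1) → ℝ =>
      F (Fin.cons (1 / (lam (tl z) * z 0)) (tl z)) / (lam (tl z) * (z 0) ^ 2)) ∧
    ∫ z : Fin (n + 1) → ℝ,
      F (Fin.cons (1 / (lam (tl z) * z 0)) (tl z)) / (lam (tl z) * (z 0) ^ 2) = ∫ z, F z := by
  have e := volume_preserving_piFinSuccAbove (fun _ : Fin (n + 1) => ℝ) 0
  have hc : Measurable fun p : ℝ × (Fin n → ℝ) => (Fin.cons p.1 p.2 : Fin (n + 1) → ℝ) := by
    refine measurable_pi_iff.2 fun i => ?_
    refine Fin.cases ?_ (fun j => ?_) i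
    · simpa using measurable_fst
    · simp only [Fin.cons_succ]
      exact (measurable_pi_apply j).comp measurable_snd
  set f : ℝ × (Fin n → ℝ) → ℝ := fun p => F (Fin.cons p.1 p.2) with hf
  set g : ℝ × (Fin n → ℝ) → ℝ := fun p =>
    F (Fin.cons (1 / (lam p.2 * p.1)) p.2) / (lam p.2 * p.1 ^ 2) with hg
  have hfe : F = f ∘ (MeasurableEquiv.piFinSuccAbove (fun _ : Fin (n + 1) => ℝ) 0) := by
    funext z
    simp only [hf, Function.comp, MeasurableEquiv.piFinSuccAbove_apply]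
    congr 1
    exact (Fin.cons_self_tail z).symm
  have hge : (fun z : Fin (n + 1) → ℝ =>
      F (Fin.cons (1 / (lam (tl z) * z 0)) (tl z)) / (lam (tl z) * (z 0) ^ 2)) =
      g ∘ (MeasurableEquiv.piFinSuccAbove (fun _ : Fin (n + 1) => ℝ) 0) := by
    funext z
    simp only [hg, Function.comp, MeasurableEquiv.piFinSuccAbove_apply]
    rfl
  have hfm : Measurable f := hF.comp hc
  have hlm : Measurable fun p : ℝ × (Fin n → ℝ) => lam p.2 := hl.comp measurable_snd
  have hgm : Measurable g := by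
    refine Measurable.div ?_ (hlm.mul (measurable_fst.pow_const 2))
    refine hF.comp ?_
    exact hc.comp ((measurable_const.div (hlm.mul measurable_fst)).prodMk measurable_snd)
  have hfi : Integrable f := by
    rw [hfe] at hi
    exact (e.integrable_comp_emb (MeasurableEquiv.measurableEmbedding _)).1 hi
  have hf1 : (∀ᵐ x : Fin n → ℝ, Integrable (fun u : ℝ => f (u, x))) ∧
      Integrable (fun x : Fin n → ℝ => ∫ u : ℝ, ‖f (u, x)‖) :=
    (integrable_prod_iff' (μ := volume) (ν := volume) hfm.aestronglyMeasurable).1 hfi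
  have hgi : Integrable g := by
    refine (integrable_prod_iff' (μ := volume) (ν := volume) hgm.aestronglyMeasurable).2 ⟨?_, ?_⟩
    · filter_upwards [h0, hf1.1] with x hx1 hx2
      exact (inv_fib57 hx1 (fun u => f (u, x))).1 hx2
    · refine hf1.2.congr ?_
      filter_upwards [h0] with x hx1
      have h1 := (inv_fib57 hx1 (fun u => ‖f (u, x)‖)).2
      rw [← h1]
      refine integral_congr_ae (Eventually.of_forall fun w => ?_)
      simp only [hg, hf, norm_div]
      rw [Real.norm_of_nonneg (by positivity : (0 : ℝ) ≤ lam x * w ^ 2)]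
  constructor
  · rw [hge]
    exact (e.integrable_comp_emb (MeasurableEquiv.measurableEmbedding _)).2 hgi
  · have h1 : ∫ z, (g ∘ (MeasurableEquiv.piFinSuccAbove (fun _ : Fin (n + 1) => ℝ) 0)) z =
        ∫ p, g p := e.integral_comp (MeasurableEquiv.measurableEmbedding _) g
    have h2 : ∫ z, (f ∘ (MeasurableEquiv.piFinSuccAbove (fun _ : Fin (n + 1) => ℝ) 0)) z =
        ∫ p, f p := e.integral_comp (MeasurableEquiv.measurableEmbedding _) f
    have h3 : ∫ p, g p = ∫ x : Fin n → ℝ, ∫ w : ℝ, g (w, x) := integral_prod_symm g hgi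
    have h4 : ∫ p, f p = ∫ x : Fin n → ℝ, ∫ w : ℝ, f (w, x) := integral_prod_symm f hfi
    rw [hge, h1, h3]
    rw [← hfe] at h2
    rw [h2, h4]
    refine integral_congr_ae ?_
    filter_upwards [h0] with x hx1
    exact (inv_fib57 hx1 (fun u => f (u, x))).2

theorem inv_lint (g : ℝ → ENNReal) (_hg : Measurable g) (a : ℝ) (ha : 0 < a) :
    ∫⁻ w : ℝ, g (1 / (a * w)) * ENNReal.ofReal (1 / (a * w ^ 2)) = ∫⁻ u : ℝ, g u := by
  have hs : MeasurableSet ({0}ᶜ : Set ℝ) := (measurableSet_singleton 0).compl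
  have h1 := lintegral_image_eq_lintegral_abs_deriv_mul hs (inv_der57 ha) (inv_inj57 ha) g
  rw [inv_img57 ha] at h1
  rw [← lintegral_congr_ae (ae_of_all _ fun w => rfl), ← restrict_compl_singleton (μ := volume) (0 : ℝ)]
  rw [h1]
  refine setLIntegral_congr_fun hs fun w hw => ?_
  have hw0 : w ≠ 0 := hw
  rw [mul_comm, abs_neg, abs_of_pos (by positivity)]
  congr 2
  field_simp

theorem trans_int {n : ℕ} (F G : (Fin (n + 1) → ℝ) → ℝ) (hF : Measurable F)
    (hG : Measurable G)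
    (hF0 : ∀ᵐ z, 0 ≤ F z) (hi : Integrable F) (lam : (Fin n → ℝ) → ℝ) (hm : Measurable lam)
    (hl : ∀ᵐ x, 0 < lam x)
    (h : ∀ (x : Fin n → ℝ) (w : ℝ), 0 < lam x → w ≠ 0 → G (Fin.cons w x) =
      F (Fin.cons (1 / (lam x * w)) x) / (lam x * w ^ 2)) :
    (∀ᵐ z, 0 ≤ G z) ∧ Integrable G ∧ ∫ z, G z = ∫ z, F z := by
  have hz0 : ∀ᵐ z : Fin (n + 1) → ℝ, z 0 ≠ 0 := by
    have h1 := Pool.Agent.CVol.null_rat (MvPolynomial.X 0 : MvPolynomial (Fin (n + 1)) ℚ)
      (MvPolynomial.X_ne_zero 0)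
    rw [ae_iff]
    simpa using h1
  have hzl : ∀ᵐ z : Fin (n + 1) → ℝ, 0 < lam (tl z) := by
    have e := volume_preserving_piFinSuccAbove (fun _ : Fin (n + 1) => ℝ) 0
    have h1 : ∀ᵐ p : ℝ × (Fin n → ℝ), 0 < lam p.2 :=
      (Measure.quasiMeasurePreserving_snd (μ := (volume : Measure ℝ))
        (ν := (volume : Measure (Fin n → ℝ)))).ae hl
    exact e.quasiMeasurePreserving.ae h1
  have hGe : ∀ᵐ z : Fin (n + 1) → ℝ, G z =
      F (Fin.cons (1 / (lam (tl z) * z 0)) (tl z)) / (lam (tl z) * (z 0) ^ 2) := by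
    filter_upwards [hz0, hzl] with z hz1 hz2
    have h1 := h (tl z) (z 0) hz2 hz1
    have h2 : (Fin.cons (z 0) (tl z) : Fin (n + 1) → ℝ) = z := Fin.cons_self_tail z
    rwa [h2] at h1
  obtain ⟨k1, k2⟩ := subst57 F hF hi lam hm hl
  obtain ⟨k3, k4⟩ := subst57 (fun z => |F z|) (continuous_abs.measurable.comp hF) hi.abs lam hm hl
  have hGi : Integrable G := k1.congr (by filter_upwards [hGe] with z hz; exact hz.symm)
  have hGv : ∫ z, G z = ∫ z, F z := by
    rw [← k2]
    exact integral_congr_ae hGe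
  have hAe : ∀ᵐ z : Fin (n + 1) → ℝ, |G z| =
      |F (Fin.cons (1 / (lam (tl z) * z 0)) (tl z))| / (lam (tl z) * (z 0) ^ 2) := by
    filter_upwards [hGe, hzl] with z hz hz2
    rw [hz, abs_div, abs_of_nonneg (by positivity : (0 : ℝ) ≤ lam (tl z) * (z 0) ^ 2)]
  have hAv : ∫ z, |G z| = ∫ z, F z := by
    have h1 : ∫ z, |G z| = ∫ z, |F z| := by
      rw [← k4]
      exact integral_congr_ae hAe
    rw [h1]
    refine integral_congr_ae ?_
    filter_upwards [hF0] with z hz
    exact abs_of_nonneg hz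
  refine ⟨?_, hGi, hGv⟩
  have h5 : ∫ z, (|G z| - G z) = 0 := by
    rw [integral_sub hGi.abs hGi, hAv, hGv, sub_self]
  have h6 := (integral_eq_zero_iff_of_nonneg (fun z => sub_nonneg.2 (le_abs_self (G z)))
    (hGi.abs.sub hGi)).1 h5
  filter_upwards [h6] with z hz
  have h7 : |G z| - G z = 0 := hz
  have h8 : G z = |G z| := by linarith
  rw [h8]
  exact abs_nonneg _

end Pool.Agent.T59
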