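import Pool.Agent.W_2cf66e_h23.LuA3
import Pool.Agent.W_2cf66e_h23.LuA2a

/-!
# MP_2cf66e_nt, theorem PS, leaf T9 (helper88): a positive polynomial decays at most polynomially
-/

set_option autoImplicit false

noncomputable section

open MeasureTheory Set Filter Topology MvPolynomial

namespace Pool.Agent.T59

open Pool.Agent.WSP

theorem loja {m : ℕ} (A : MvPolynomial (Fin m) ℤ) (hA : ∀ z : Fin m → ℝ, 0 < (aeval z A : ℝ)) :
    ∃ M N : ℕ, ∀ z : Fin m → ℝ, 2 ≤ (M : ℝ) * (1 + ∑ i, z i ^ 2) ^ N * aeval z A := by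
  have hAc : Continuous fun z : Fin m → ℝ => (aeval z A : ℝ) := by
    have h1 := MvPolynomial.continuous_eval (MvPolynomial.map (algebraMap ℤ ℝ) A)
    simp only [MvPolynomial.eval_map, ← MvPolynomial.aeval_def] at h1
    exact h1
  have hsc : Continuous fun z : Fin m → ℝ => ∑ i, z i ^ 2 := by fun_prop
  -- the definable relation
  have hP0 : U78.Df (fun v : Option (Fin 1) ⊕ Fin m → ℝ =>
      v (Sum.inl (some 0)) * ∑ i, v (Sum.inr i) ^ 2 ≤ ((1 : ℤ) : ℝ) ∧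
        v (Sum.inl none) * aeval (fun i => v (Sum.inr i)) A = ((1 : ℤ) : ℝ)) := by
    refine U78.Df.and (U78.Df.le ?_ (U78.PolyFun.const 1)) (U78.Df.eq ?_ (U78.PolyFun.const 1))
    · exact (U78.PolyFun.var (Sum.inl (some 0) : Option (Fin 1) ⊕ Fin m)).mul
        (U78.PolyFun.sum _ fun i => (U78.PolyFun.var (Sum.inr i)).pow 2)
    · refine (U78.PolyFun.var (Sum.inl none : Option (Fin 1) ⊕ Fin m)).mul
        ⟨rename Sum.inr A, fun v => ?_⟩
      rw [aeval_rename]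
      rfl
  have hP : U78.Df (fun v : Option (Fin 1) → ℝ => ∃ z : Fin m → ℝ,
      v (some 0) * ∑ i, z i ^ 2 ≤ 1 ∧ v none * aeval z A = 1) := by
    refine hP0.exV.congr fun v => ?_
    simp only [Sum.elim_inl, Sum.elim_inr, Int.cast_one]
  obtain ⟨s, hs⟩ := growth (k := 0) _ (DF.dsup hP)
  obtain ⟨c, hc, hg⟩ := hs Fin.elim0
  -- compactness on balls
  have hbox : ∀ r : ℝ, IsCompact {z : Fin m → ℝ | ∑ i, z i ^ 2 ≤ r} := by
    intro r
    refine Metric.isCompact_of_isClosed_isBounded (isClosed_le hsc continuous_const) ?_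
    rw [isBounded_iff_forall_norm_le]
    refine ⟨1 + |r|, fun z hz => ?_⟩
    rw [pi_norm_le_iff_of_nonneg (by positivity)]
    intro i
    have h1 : z i ^ 2 ≤ r := (Finset.single_le_sum (f := fun i => z i ^ 2)
      (fun j _ => sq_nonneg _) (Finset.mem_univ i)).trans hz
    rw [Real.norm_eq_abs]
    have h2 : |z i| ^ 2 ≤ |r| := by rw [sq_abs]; exact h1.trans (le_abs_self r)
    nlinarith [abs_nonneg (z i), abs_nonneg r]
  have hinv : ∀ r : ℝ, ∃ B : ℝ, 0 < B ∧ ∀ z : Fin m → ℝ, ∑ i, z i ^ 2 ≤ r →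
      1 ≤ B * aeval z A := by
    intro r
    obtain ⟨B, hB⟩ := (hbox r).exists_bound_of_continuousOn (f := fun z : Fin m → ℝ =>
      (aeval z A : ℝ)⁻¹) (hAc.continuousOn.inv₀ fun z _ => (hA z).ne')
    refine ⟨max B 1, lt_of_lt_of_le one_pos (le_max_right _ _), fun z hz => ?_⟩
    have h1 := hB z hz
    rw [Real.norm_eq_abs, abs_of_pos (inv_pos.2 (hA z))] at h1
    have h2 : (aeval z A : ℝ)⁻¹ ≤ max B 1 := h1.trans (le_max_left _ _)
    calc (1 : ℝ) = (aeval z A : ℝ)⁻¹ * aeval z A := (inv_mul_cancel₀ (hA z).ne').symm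
      _ ≤ max B 1 * aeval z A := mul_le_mul_of_nonneg_right h2 (hA z).le
  obtain ⟨B, hB0, hB⟩ := hinv (1 / c)
  obtain ⟨M, hM⟩ := exists_nat_ge (max (2 * B) 2)
  refine ⟨M, s, fun z => ?_⟩
  set S : ℝ := ∑ i, z i ^ 2 with hS
  have hS0 : 0 ≤ S := Finset.sum_nonneg fun i _ => sq_nonneg _
  have h1S : (1 : ℝ) ≤ (1 + S) ^ s := one_le_pow₀ (by linarith)
  have hMB : 2 * B ≤ M := (le_max_left _ _).trans hM
  have hM2 : (2 : ℝ) ≤ M := (le_max_right _ _).trans hM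
  by_cases hz : S ≤ 1 / c
  · have h1 := hB z hz
    calc (2 : ℝ) ≤ 2 * (B * aeval z A) := by linarith
      _ = (2 * B) * 1 * aeval z A := by ring
      _ ≤ (M : ℝ) * (1 + S) ^ s * aeval z A := by
        refine mul_le_mul_of_nonneg_right ?_ (hA z).le
        exact mul_le_mul hMB h1S zero_le_one (by positivity)
  · push Not at hz
    set v : ℝ := (1 + S)⁻¹ with hv
    have hv0 : 0 < v := by positivity
    have hvc : v < c := by
      rw [hv, inv_lt_comm₀ (by positivity) hc]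
      rw [one_div] at hz
      linarith
    have h1 := hg v hv0 hvc
    obtain ⟨B', hB'0, hB'⟩ := hinv (1 / v)
    have hset : {t : ℝ | ∃ z : Fin m → ℝ, v * ∑ i, z i ^ 2 ≤ 1 ∧ t * aeval z A = 1} =
        {t : ℝ | ∃ z : Fin m → ℝ, (fun o : Option (Fin 1) => o.elim t
          (Fin.cons v (Fin.elim0 : Fin 0 → ℝ) : Fin 1 → ℝ)) (some 0) * ∑ i, z i ^ 2 ≤ 1 ∧
          (fun o : Option (Fin 1) => o.elim t
          (Fin.cons v (Fin.elim0 : Fin 0 → ℝ) : Fin 1 → ℝ)) none * aeval z A = 1} := rfl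
    have hbd : BddAbove {t : ℝ | ∃ z : Fin m → ℝ, v * ∑ i, z i ^ 2 ≤ 1 ∧ t * aeval z A = 1} := by
      refine ⟨B', ?_⟩
      rintro t ⟨y, hy1, hy2⟩
      have hy3 : ∑ i, y i ^ 2 ≤ 1 / v := by rw [le_div_iff₀ hv0]; linarith
      have h3 := hB' y hy3
      rw [← hy2] at h3
      exact le_of_mul_le_mul_right h3 (hA y)
    have hmem : (aeval z A : ℝ)⁻¹ ∈
        {t : ℝ | ∃ z : Fin m → ℝ, v * ∑ i, z i ^ 2 ≤ 1 ∧ t * aeval z A = 1} := by
      refine ⟨z, ?_, inv_mul_cancel₀ (hA z).ne'⟩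
      rw [← hS, hv, inv_mul_le_iff₀ (by positivity)]
      linarith
    have h2 := le_csSup hbd hmem
    rw [hset] at h2
    have h3 : (aeval z A : ℝ)⁻¹ ≤ (v ^ s)⁻¹ := h2.trans ((le_abs_self _).trans h1)
    have h4 : (v ^ s)⁻¹ = (1 + S) ^ s := by rw [hv, inv_pow, inv_inv]
    rw [h4] at h3
    have h5 : (1 : ℝ) ≤ (1 + S) ^ s * aeval z A := by
      calc (1 : ℝ) = (aeval z A : ℝ)⁻¹ * aeval z A := (inv_mul_cancel₀ (hA z).ne').symm
        _ ≤ (1 + S) ^ s * aeval z A := mul_le_mul_of_nonneg_right h3 (hA z).le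
    calc (2 : ℝ) ≤ M * 1 := by linarith
      _ ≤ M * ((1 + S) ^ s * aeval z A) := mul_le_mul_of_nonneg_left h5 (by positivity)
      _ = (M : ℝ) * (1 + S) ^ s * aeval z A := by ring

end Pool.Agent.T59
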