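import Pool.Agent.W_2cf66e_PS.LtC
import Pool.Agent.W_2cf66e_PS.LtD
import Pool.Agent.W_2cf66e_PS.LtE
import Pool.Agent.W_2cf66e_PS.LtF
import Pool.Agent.W_2cf66e_PS.LtI
import Pool.Agent.W_2cf66e_h57.Grid57
import Pool.Agent.W_2cf66e_P.LpJ
import Pool.Agent.W_2cf66e_h59.LR11

/-!
# MP_2cf66e_nt, strictly positive integrands in the same dimension: assembly (helper59)
-/

set_option autoImplicit false

noncomputable section

open MeasureTheory Set Filter Topology MvPolynomial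

namespace Pool.Agent.T59

open Pool.Agent.WSP

variable {n : ℕ}

theorem contQ59 {m : ℕ} (f : MvPolynomial (Fin m) ℚ) :
    Continuous fun z : Fin m → ℝ => (aeval z f : ℝ) := by
  have h : (fun z : Fin m → ℝ => (aeval z f : ℝ)) =
      fun z => eval z (map (algebraMap ℚ ℝ) f) := by
    funext z; rw [eval_map, aeval_def]
  rw [h]; exact continuous_eval _

theorem RF_cont59 {m : ℕ} {f : (Fin m → ℝ) → ℝ} (h : RF f) : Continuous f := by
  obtain ⟨P, Q, hQ, hv⟩ := h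
  have h1 : f = fun z => (aeval z P : ℝ) / aeval z Q := funext hv
  rw [h1]
  exact (contQ59 P).div (contQ59 Q) fun z => (hQ z).ne'

theorem tl_cont59 : Continuous fun z : Fin (n + 1) → ℝ => tl z :=
  continuous_pi fun j => continuous_apply j.succ

theorem tl_cons59 (w : ℝ) (x : Fin n → ℝ) : tl (Fin.cons w x : Fin (n + 1) → ℝ) = x := by
  funext j
  simp [tl]

theorem F_meas59 (s : ℕ) (p q : ℕ → MvPolynomial (Fin n) ℚ) :
    Measurable fun z : Fin (n + 1) → ℝ => Pf s p (tl z) (z 0) / Qf s q (tl z) (z 0) := by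
  have h1 : Continuous fun z : Fin (n + 1) → ℝ => Pf s p (tl z) (z 0) := by
    unfold Pf
    refine continuous_finsetSum _ fun i _ => ?_
    exact ((contQ59 (p i)).comp tl_cont59).mul ((continuous_apply 0).pow i)
  have h2 : Continuous fun z : Fin (n + 1) → ℝ => Qf s q (tl z) (z 0) := by
    unfold Qf
    refine continuous_finsetSum _ fun i _ => ?_
    exact ((contQ59 (q i)).comp tl_cont59).mul ((continuous_apply 0).pow i)
  exact h1.measurable.div h2.measurable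

theorem ps_form {c : ℝ} (hc : 0 < c) (h : PI (n + 1) c) :
    ∃ A B : MvPolynomial (Fin (n + 1)) ℤ,
      (∀ z : Fin (n + 1) → ℝ, 2 ≤ (aeval z A : ℝ) ∧ 2 * (aeval z A : ℝ) ≤ aeval z B) ∧
      Integrable (fun z : Fin (n + 1) → ℝ => (aeval z A : ℝ) / aeval z B) ∧
      ∫ z : Fin (n + 1) → ℝ, (aeval z A : ℝ) / aeval z B = Real.pi * c := by
  obtain ⟨s, p, q, hq, hz, hnn, hi, hv⟩ := nform hc h
  obtain ⟨μ, hμ, h0, h1, h2, h3⟩ := mu_lem s p q hq hz
  obtain ⟨G, lam, hG, hlam, hG1, hl, hGf⟩ := trans_form s p q hq μ hμ h0 h1 h2 h3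
  have hcons : ∀ (x : Fin n → ℝ) (w : ℝ), 0 < lam x → w ≠ 0 → G (Fin.cons w x) =
      (fun z : Fin (n + 1) → ℝ => Pf s p (tl z) (z 0) / Qf s q (tl z) (z 0))
        (Fin.cons (1 / (lam x * w)) x) / (lam x * w ^ 2) := by
    intro x w hx hw
    rw [hGf x w hx hw]
    beta_reduce
    rw [tl_cons59, Fin.cons_zero]
  obtain ⟨hGn, hGi, hGv⟩ := trans_int _ G (F_meas59 s p q) (RF_cont59 hG).measurable hnn hi lam
    (RF_cont59 hlam).measurable hl hcons
  have hG0 : ∀ z, 0 ≤ G z := cont_nonneg6 (RF_cont59 hG) hGn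
  obtain ⟨A0, B0, hB0, hGAB⟩ := hG
  have hA0 : ∀ z : Fin (n + 1) → ℝ, (0 : ℝ) ≤ aeval z A0 := by
    intro z
    have h4 := hG0 z
    rw [hGAB] at h4
    have h5 := mul_nonneg h4 (hB0 z).le
    rwa [div_mul_cancel₀ _ (hB0 z).ne'] at h5
  have h2A : ∀ z : Fin (n + 1) → ℝ, 2 * (aeval z A0 : ℝ) ≤ aeval z B0 := by
    intro z
    have h4 := (abs_le.1 (hG1 z)).2
    rw [hGAB, div_le_iff₀ (hB0 z)] at h4
    linarith
  have hfun : G = fun z : Fin (n + 1) → ℝ => (aeval z A0 : ℝ) / aeval z B0 := funext hGAB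
  rw [hfun] at hGi hGv
  have hA0ne : A0 ≠ 0 := by
    intro h4
    rw [h4] at hGv
    simp only [map_zero, zero_div, integral_zero] at hGv
    rw [hv] at hGv
    have := mul_pos Real.pi_pos hc
    linarith
  obtain ⟨A, B, hAB, hABi, hABv⟩ := grid_pos57 A0 B0 hA0ne hA0 hB0 h2A hGi
  obtain ⟨M, N, hMN⟩ := loja A fun z => (hAB z).1
  obtain ⟨K, hK⟩ : ∃ K : MvPolynomial (Fin (n + 1)) ℤ, K = C (M : ℤ) * (1 + ∑ i, X i ^ 2) ^ N :=
    ⟨_, rfl⟩
  have hKv : ∀ z : Fin (n + 1) → ℝ, (aeval z K : ℝ) = M * (1 + ∑ i, z i ^ 2) ^ N := by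
    intro z
    rw [hK]
    simp
  have hKA : ∀ z : Fin (n + 1) → ℝ, 2 ≤ (aeval z K : ℝ) * aeval z A := by
    intro z
    rw [hKv]
    exact hMN z
  have hKpos : ∀ z : Fin (n + 1) → ℝ, 0 < (aeval z K : ℝ) := by
    intro z
    have h4 := hKA z
    have h5 := (hAB z).1
    by_contra h6
    push Not at h6
    nlinarith [mul_nonneg (neg_nonneg.2 h6) h5.le]
  have hfr : ∀ z : Fin (n + 1) → ℝ, (aeval z (K * A) : ℝ) / aeval z (K * B) =
      (aeval z A : ℝ) / aeval z B := by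
    intro z
    rw [map_mul, map_mul, mul_div_mul_left _ _ (hKpos z).ne']
  refine ⟨K * A, K * B, fun z => ⟨?_, ?_⟩, ?_, ?_⟩
  · rw [map_mul]
    exact hKA z
  · rw [map_mul, map_mul]
    have h4 := mul_le_mul_of_nonneg_left (hAB z).2 (hKpos z).le
    linarith
  · simp only [hfr]
    exact hABi
  · simp only [hfr]
    rw [hABv, hGv, hv]

/-- one power of `π` and one variable more, no numerator -/
theorem det_form {c : ℝ} (hc : 0 < c) (h : PI (n + 1) c) :
    ∃ (N : ℕ) (C : Fin N → Fin N → Fin (n + 4)),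
      (∀ z : Fin (n + 2) → ℝ, 0 < (OneIneq.mat C z).det) ∧
      Integrable (fun z : Fin (n + 2) → ℝ => 1 / (OneIneq.mat C z).det) ∧
      ∫ z : Fin (n + 2) → ℝ, 1 / (OneIneq.mat C z).det = Real.pi ^ 2 * c := by
  obtain ⟨A, B, hAB, hi, hv⟩ := ps_form hc h
  have hu : ∀ z : Fin (n + 1) → ℝ, (aeval z (B - A) : ℝ) = aeval z B - aeval z A :=
    fun z => by rw [map_sub]
  have hw : ∀ z : Fin (n + 1) → ℝ, (aeval z ((B - A) * (A - 1)) : ℝ) =
      (aeval z B - aeval z A) * (aeval z A - 1) := fun z => by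
    rw [map_mul, map_sub, map_sub, map_one]
  have hge : ∀ z : Fin (n + 1) → ℝ, 1 ≤ (aeval z (B - A) : ℝ) ∧
      (aeval z (B - A) : ℝ) ≤ aeval z ((B - A) * (A - 1)) := by
    intro z
    rw [hu, hw]
    obtain ⟨h1, h2⟩ := hAB z
    constructor
    · linarith
    · nlinarith
  have hfr : ∀ z : Fin (n + 1) → ℝ, ((aeval z (B - A) : ℝ) + aeval z ((B - A) * (A - 1))) /
      ((aeval z (B - A) : ℝ) ^ 2 + aeval z (B - A) + aeval z ((B - A) * (A - 1))) =
      (aeval z A : ℝ) / aeval z B := by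
    intro z
    rw [hu, hw]
    obtain ⟨h1, h2⟩ := hAB z
    have h3 : (0 : ℝ) < aeval z B - aeval z A := by linarith
    have h4 : (0 : ℝ) < aeval z B := by linarith
    rw [div_eq_div_iff (by nlinarith [mul_pos h3 h4]) h4.ne']
    ring
  obtain ⟨hii, hvv⟩ := R59.rec_prod (fun z : Fin (n + 1) → ℝ => (aeval z (B - A) : ℝ))
    (fun z => (aeval z ((B - A) * (A - 1)) : ℝ)) (R59.cont59 _) (R59.cont59 _) hge
  simp only [hfr] at hii hvv
  obtain ⟨u, hu'⟩ : ∃ u : MvPolynomial (Fin (n + 1)) ℤ, u = B - A := ⟨_, rfl⟩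
  obtain ⟨w, hw'⟩ : ∃ w : MvPolynomial (Fin (n + 1)) ℤ, w = (B - A) * (A - 1) := ⟨_, rfl⟩
  rw [← hw', ← hu'] at hii hvv
  rw [hv] at hvv
  obtain ⟨Q, hQ⟩ : ∃ Q : MvPolynomial (Fin (n + 2)) ℤ, Q =
      (1 + (rename Fin.succ u) ^ 2 * X 0 ^ 2) *
        ((1 - rename Fin.succ w * X 0 ^ 2) ^ 2 + X 0 ^ 2) := ⟨_, rfl⟩
  have hQv : ∀ z : Fin (n + 2) → ℝ, 1 / (aeval z Q : ℝ) =
      R59.rc (aeval (Fin.tail z) u) (aeval (Fin.tail z) w) (z 0) := by
    intro z
    rw [hQ]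
    simp only [map_mul, map_add, map_sub, map_one, map_pow, aeval_X, aeval_rename]
    rfl
  obtain ⟨N, C, hC⟩ : ∃ (N : ℕ) (C : Fin N → Fin N → Fin (n + 2 + 2)),
      ∀ u : Fin (n + 2) → ℝ, (OneIneq.mat C u).det = (aeval u Q : ℝ) :=
    Pool.Agent.DF2cf.exists_det_eval Q
  refine ⟨N, C, fun z => ?_, ?_, ?_⟩
  · rw [hC z, hQ]
    simp only [map_mul, map_add, map_sub, map_one, map_pow, aeval_X, aeval_rename]
    refine mul_pos (by positivity) ?_
    by_cases h3 : z 0 = 0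
    · rw [h3]; norm_num
    · have h4 : 0 < z 0 ^ 2 := by positivity
      positivity
  · simp only [hC, hQv]
    exact hii.2 hi
  · simp only [hC, hQv]
    rw [hvv]
    ring

end Pool.Agent.T59
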