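import Pool.Agent.W_2cf66e_h3.Stmt

/-!
# MP_2cf66e_nt, integrals over the whole space: definitions used in the statement (helper59)
-/

set_option autoImplicit false

noncomputable section

open MeasureTheory MvPolynomial

namespace Pool.Agent.NF59

/-- `y` is the absolutely convergent integral over `ℝ^m` of a rational function `P / Q` with
rational coefficients (value `0` where `Q = 0`). -/
def RatInt (m : ℕ) (y : ℝ) : Prop :=
  ∃ P Q : MvPolynomial (Fin m) ℚ,
    Integrable (fun z : Fin m → ℝ => (aeval z P : ℝ) / aeval z Q) volume ∧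
    (∫ z : Fin m → ℝ, (aeval z P : ℝ) / aeval z Q) = y

/-- `y` is the absolutely convergent integral over `ℝ^m` of `A / B` for polynomials `A`, `B` with
integer coefficients such that `|A| < B` at every point of `ℝ^m`. -/
def BddInt (m : ℕ) (y : ℝ) : Prop :=
  ∃ A B : MvPolynomial (Fin m) ℤ, (∀ z : Fin m → ℝ, |(aeval z A : ℝ)| < aeval z B) ∧
    Integrable (fun z : Fin m → ℝ => (aeval z A : ℝ) / aeval z B) volume ∧
    (∫ z : Fin m → ℝ, (aeval z A : ℝ) / aeval z B) = y

/-- `y` is the absolutely convergent integral over `ℝ^m` of `A / B` for polynomials `A`, `B` with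
integer coefficients such that `0 < A < B` at every point of `ℝ^m`. -/
def PosInt (m : ℕ) (y : ℝ) : Prop :=
  ∃ A B : MvPolynomial (Fin m) ℤ,
    (∀ z : Fin m → ℝ, 0 < (aeval z A : ℝ) ∧ (aeval z A : ℝ) < aeval z B) ∧
    Integrable (fun z : Fin m → ℝ => (aeval z A : ℝ) / aeval z B) volume ∧
    (∫ z : Fin m → ℝ, (aeval z A : ℝ) / aeval z B) = y

/-- `y` is the absolutely convergent integral over `ℝ^m` of `1 / det M(z)`, where `M(z)` is a
square matrix each of whose entries is `0`, `1` or one of `z_1, ..., z_m`, and `det M(z) > 0` at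
every point of `ℝ^m`. -/
def DetInt (m : ℕ) (y : ℝ) : Prop :=
  ∃ (N : ℕ) (c : Fin N → Fin N → Fin (m + 2)),
    (∀ z : Fin m → ℝ, 0 < (OneIneq.mat c z).det) ∧
    Integrable (fun z : Fin m → ℝ => 1 / (OneIneq.mat c z).det) volume ∧
    (∫ z : Fin m → ℝ, 1 / (OneIneq.mat c z).det) = y

/-- `y` is the volume of a set `{w ∈ ℝ^n | q_1(w) ^ 2 + ... + q_r(w) ^ 2 < 1}`, where the `q_i`
are polynomials of degree at most `2` with rational coefficients. -/
def QuadVol (y : ℝ) : Prop :=
  ∃ (n r : ℕ) (q : Fin r → MvPolynomial (Fin n) ℚ), (∀ i, (q i).totalDegree ≤ 2) ∧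
    volume {w : Fin n → ℝ | ∑ i, (aeval w (q i) : ℝ) ^ 2 < 1} = ENNReal.ofReal y

end Pool.Agent.NF59
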