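import Mathlib

/-!
# MP_2cf66e_nt, theorem PS: compactness in one fibre
-/

set_option autoImplicit false

noncomputable section

open Filter Topology

namespace Pool.Agent.T59

/-- `u^2 P(u) / Q(u)` is bounded if `deg P + 2 ≤ deg Q` and `Q` has no real zero. -/
theorem cpt14 (s : ℕ) (a b : ℕ → ℝ) (hb : b (s + 2) ≠ 0)
    (hz : ∀ u : ℝ, ∑ i ∈ Finset.range (s + 3), b i * u ^ i ≠ 0) :
    ∃ t₀ : ℝ, 0 < t₀ ∧ ∀ t : ℝ, 0 ≤ t → t ≤ t₀ → ∀ u : ℝ,
      2 * t * u ^ 2 * |∑ i ∈ Finset.range (s + 1), a i * u ^ i| ≤
        |∑ i ∈ Finset.range (s + 3), b i * u ^ i| := by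
  set A : Polynomial ℝ := Polynomial.X ^ 2 *
    ∑ i ∈ Finset.range (s + 1), Polynomial.C (a i) * Polynomial.X ^ i with hA
  set B : Polynomial ℝ := ∑ i ∈ Finset.range (s + 3), Polynomial.C (b i) * Polynomial.X ^ i with hB
  have hAe : ∀ u : ℝ, A.eval u = u ^ 2 * ∑ i ∈ Finset.range (s + 1), a i * u ^ i := by
    intro u
    simp [hA, Polynomial.eval_finsetSum]
  have hBe : ∀ u : ℝ, B.eval u = ∑ i ∈ Finset.range (s + 3), b i * u ^ i := by
    intro u
    simp [hB, Polynomial.eval_finsetSum]
  have hBc : B.coeff (s + 2) = b (s + 2) := by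
    rw [hB, Polynomial.finsetSum_coeff]
    simp [Polynomial.coeff_C_mul, Polynomial.coeff_X_pow]
  have hAd : A.degree ≤ ((s + 2 : ℕ) : WithBot ℕ) := by
    apply Polynomial.degree_le_of_natDegree_le
    have h1 : (∑ i ∈ Finset.range (s + 1), Polynomial.C (a i) * Polynomial.X ^ i).natDegree ≤
        s := by
      refine Polynomial.natDegree_sum_le_of_forall_le _ _ fun i hi => ?_
      have h2 : i ≤ s := by
        have := Finset.mem_range.1 hi
        omega
      exact (Polynomial.natDegree_C_mul_X_pow_le (a i) i).trans h2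
    rw [hA]
    refine Polynomial.natDegree_mul_le.trans ?_
    rw [Polynomial.natDegree_X_pow]
    omega
  have hBd : ((s + 2 : ℕ) : WithBot ℕ) ≤ B.degree := by
    apply Polynomial.le_degree_of_ne_zero
    rw [hBc]
    exact hb
  have hdeg : A.degree ≤ B.degree := hAd.trans hBd
  have hz' : ∀ u : ℝ, B.eval u ≠ 0 := fun u => by
    rw [hBe]
    exact hz u
  -- the quotient is bounded
  have hbd : ∃ M : ℝ, ∀ u : ℝ, |A.eval u / B.eval u| ≤ M := by
    have hcont : Continuous fun u : ℝ => A.eval u / B.eval u :=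
      A.continuous.div B.continuous hz'
    have h1 : ∃ M1 : ℝ, ∃ u1 : ℝ, ∀ u : ℝ, u1 ≤ u → |A.eval u / B.eval u| ≤ M1 := by
      have h2 := Polynomial.isBigO_atTop_of_degree_le A B hdeg
      obtain ⟨c, hc⟩ := h2.bound
      obtain ⟨u1, hu1⟩ := eventually_atTop.1 hc
      refine ⟨c, u1, fun u hu => ?_⟩
      have h3 := hu1 u hu
      rw [Real.norm_eq_abs, Real.norm_eq_abs] at h3
      rw [abs_div, div_le_iff₀ (abs_pos.2 (hz' u))]
      exact h3
    have h1' : ∃ M1 : ℝ, ∃ u1 : ℝ, ∀ u : ℝ, u1 ≤ u → |A.eval (-u) / B.eval (-u)| ≤ M1 := by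
      have h2 := Polynomial.isBigO_atTop_of_degree_le (A.comp (-Polynomial.X)) (B.comp (-Polynomial.X))
        (by
          rcases eq_or_ne A 0 with hA0 | hA0
          · rw [hA0]
            simp
          have hB0 : B ≠ 0 := by
            intro h0
            exact hz' 0 (by rw [h0]; simp)
          have e1 : (A.comp (-Polynomial.X)).degree = A.degree := by
            rw [Polynomial.degree_eq_natDegree hA0]
            rw [Polynomial.degree_eq_natDegree (by
              intro h0
              apply hA0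
              have := congrArg (fun p : Polynomial ℝ => p.comp (-Polynomial.X)) h0
              simpa [Polynomial.comp_assoc] using this), Polynomial.natDegree_comp]
            simp
          have e2 : (B.comp (-Polynomial.X)).degree = B.degree := by
            rw [Polynomial.degree_eq_natDegree hB0]
            rw [Polynomial.degree_eq_natDegree (by
              intro h0
              apply hB0
              have := congrArg (fun p : Polynomial ℝ => p.comp (-Polynomial.X)) h0
              simpa [Polynomial.comp_assoc] using this), Polynomial.natDegree_comp]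
            simp
          rw [e1, e2]
          exact hdeg)
      obtain ⟨c, hc⟩ := h2.bound
      obtain ⟨u1, hu1⟩ := eventually_atTop.1 hc
      refine ⟨c, u1, fun u hu => ?_⟩
      have h3 := hu1 u hu
      simp only [Polynomial.eval_comp, Polynomial.eval_neg, Polynomial.eval_X] at h3
      rw [Real.norm_eq_abs, Real.norm_eq_abs] at h3
      rw [abs_div, div_le_iff₀ (abs_pos.2 (hz' (-u)))]
      exact h3
    obtain ⟨M1, u1, hM1⟩ := h1
    obtain ⟨M2, u2, hM2⟩ := h1'
    obtain ⟨M3, hM3⟩ := (isCompact_Icc (a := -|u2|) (b := |u1|)).exists_bound_of_continuousOn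
      hcont.continuousOn
    refine ⟨max M1 (max M2 M3), fun u => ?_⟩
    rcases le_or_gt u1 u with h | h
    · exact (hM1 u h).trans (le_max_left _ _)
    rcases le_or_gt u2 (-u) with h' | h'
    · have := hM2 (-u) h'
      rw [neg_neg] at this
      exact this.trans ((le_max_left _ _).trans (le_max_right _ _))
    · have h3 : u ∈ Set.Icc (-|u2|) (|u1|) := by
        constructor
        · have := le_abs_self u2
          linarith
        · have := le_abs_self u1
          linarith
      have h4 := hM3 u h3
      rw [Real.norm_eq_abs] at h4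
      exact h4.trans ((le_max_right _ _).trans (le_max_right _ _))
  obtain ⟨M, hM⟩ := hbd
  have hM0 : 0 ≤ M := (abs_nonneg _).trans (hM 0)
  refine ⟨1 / (2 * (M + 1)), by positivity, fun t ht0 ht u => ?_⟩
  have h1 := hM u
  rw [abs_div, div_le_iff₀ (abs_pos.2 (hz' u)), hAe, hBe, abs_mul, abs_of_nonneg (sq_nonneg u)]
    at h1
  rw [le_div_iff₀ (by positivity)] at ht
  set x := u ^ 2 * |∑ i ∈ Finset.range (s + 1), a i * u ^ i| with hx
  set y := |∑ i ∈ Finset.range (s + 3), b i * u ^ i| with hy
  have hx0 : 0 ≤ x := by positivity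
  have hy0 : 0 ≤ y := abs_nonneg _
  calc 2 * t * u ^ 2 * |∑ i ∈ Finset.range (s + 1), a i * u ^ i| = 2 * t * x := by
        rw [hx]
        ring
    _ ≤ 2 * t * (M * y) := mul_le_mul_of_nonneg_left h1 (by positivity)
    _ ≤ y := by nlinarith

end Pool.Agent.T59
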