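import Pool.Agent.W_2cf66e_P.DefsP

/-!
# MP_2cf66e_nt, strictly positive integrands in the same dimension: definitions (helper59)
-/

set_option autoImplicit false

noncomputable section

open MeasureTheory Set Filter Topology MvPolynomial

namespace Pool.Agent.T59

open Pool.Agent.WSP

variable {n : ℕ}

/-- The numerator of degree at most `s` in `u`. -/
def Pf (s : ℕ) (p : ℕ → MvPolynomial (Fin n) ℚ) (x : Fin n → ℝ) (u : ℝ) : ℝ :=
  ∑ i ∈ Finset.range (s + 1), (aeval x (p i) : ℝ) * u ^ i

/-- The denominator of degree at most `s + 2` in `u`. -/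
def Qf (s : ℕ) (q : ℕ → MvPolynomial (Fin n) ℚ) (x : Fin n → ℝ) (u : ℝ) : ℝ :=
  ∑ i ∈ Finset.range (s + 3), (aeval x (q i) : ℝ) * u ^ i

end Pool.Agent.T59
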