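import Pool.Agent.W_2cf66e_P.LpM

/-!
# MP_2cf66e_nt, theorem PS, leaf T1: cancellation (helper31)
-/

set_option autoImplicit false

noncomputable section

open MeasureTheory Set Filter Topology MvPolynomial

namespace Pool.Agent.T59

open Pool.Agent.WSP LfG

variable {n : ℕ}

theorem cop_alg31 {R : Type*} (K : Type*) [CommRing R] [IsDomain R] [Field K] [Algebra R K]
    [IsFractionRing R K] (p q : Polynomial R) (hq : q ≠ 0) :
    ∃ (p1 q1 u v : Polynomial R) (d : R), q1 ≠ 0 ∧ d ≠ 0 ∧ p * q1 = p1 * q ∧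
      u * p1 + v * q1 = Polynomial.C d := by
  classical
  have hinj : Function.Injective (algebraMap R K) := IsFractionRing.injective R K
  have hmi : Function.Injective (Polynomial.map (algebraMap R K)) := Polynomial.map_injective _ hinj
  obtain ⟨P, hP⟩ : ∃ P : Polynomial K, P = p.map (algebraMap R K) := ⟨_, rfl⟩
  obtain ⟨Q, hQ⟩ : ∃ Q : Polynomial K, Q = q.map (algebraMap R K) := ⟨_, rfl⟩
  have hQ0 : Q ≠ 0 := by
    intro h
    exact hq (hmi (by rw [← hQ, h, Polynomial.map_zero]))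
  obtain ⟨g, hg⟩ : ∃ g : Polynomial K, g = EuclideanDomain.gcd P Q := ⟨_, rfl⟩
  have hg0 : g ≠ 0 := by
    intro h
    rw [hg, EuclideanDomain.gcd_eq_zero_iff] at h
    exact hQ0 h.2
  obtain ⟨P1, hP1⟩ : g ∣ P := hg ▸ EuclideanDomain.gcd_dvd_left P Q
  obtain ⟨Q1, hQ1⟩ : g ∣ Q := hg ▸ EuclideanDomain.gcd_dvd_right P Q
  obtain ⟨a, ha⟩ : ∃ a, a = EuclideanDomain.gcdA P Q := ⟨_, rfl⟩
  obtain ⟨b, hb⟩ : ∃ b, b = EuclideanDomain.gcdB P Q := ⟨_, rfl⟩
  have hab : a * P1 + b * Q1 = 1 := by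
    have h1 := EuclideanDomain.gcd_eq_gcd_ab P Q
    rw [← hg, ← ha, ← hb] at h1
    have h2 : g * (a * P1 + b * Q1) = g * 1 := by
      rw [mul_one]
      conv_rhs => rw [h1]
      rw [hP1, hQ1]
      ring
    exact mul_left_cancel₀ hg0 h2
  have hQ10 : Q1 ≠ 0 := by
    intro h
    rw [h, mul_zero] at hQ1
    exact hQ0 hQ1
  obtain ⟨d1, p1, hd1, e1⟩ := clr R P1
  obtain ⟨d2, q1, hd2, e2⟩ := clr R Q1
  obtain ⟨d3, a1, hd3, e3⟩ := clr R a
  obtain ⟨d4, b1, hd4, e4⟩ := clr R b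
  refine ⟨Polynomial.C d2 * p1, Polynomial.C d1 * q1, Polynomial.C d4 * a1, Polynomial.C d3 * b1,
    d1 * d2 * (d3 * d4), ?_, ?_, ?_, ?_⟩
  · intro h
    have h1 := congrArg (Polynomial.map (algebraMap R K)) h
    rw [Polynomial.map_mul, Polynomial.map_C, e2, Polynomial.map_zero] at h1
    have k1 : Polynomial.C ((algebraMap R K) d1) ≠ 0 := by
      rw [Ne, Polynomial.C_eq_zero]
      exact fun h => hd1 (hinj (by rw [h, map_zero]))
    have k2 : Polynomial.C ((algebraMap R K) d2) ≠ 0 := by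
      rw [Ne, Polynomial.C_eq_zero]
      exact fun h => hd2 (hinj (by rw [h, map_zero]))
    exact mul_ne_zero k1 (mul_ne_zero k2 hQ10) h1
  · exact mul_ne_zero (mul_ne_zero hd1 hd2) (mul_ne_zero hd3 hd4)
  · apply hmi
    simp only [Polynomial.map_mul, Polynomial.map_C, e1, e2, ← hP, ← hQ]
    rw [hP1, hQ1]
    ring
  · apply hmi
    simp only [Polynomial.map_mul, Polynomial.map_add, Polynomial.map_C, e1, e2, e3, e4, map_mul]
    linear_combination (Polynomial.C ((algebraMap R K) d1) * Polynomial.C ((algebraMap R K) d2) *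
      (Polynomial.C ((algebraMap R K) d3) * Polynomial.C ((algebraMap R K) d4))) * hab

theorem fse_succ31 (d : MvPolynomial (Fin n) ℚ) :
    finSuccEquiv ℚ n (rename Fin.succ d) = Polynomial.C d := by
  induction d using MvPolynomial.induction_on with
  | C a => simp [finSuccEquiv_apply]
  | add p q hp hq => rw [map_add, map_add, hp, hq, Polynomial.C_add]
  | mul_X p i hp => rw [map_mul, map_mul, hp, rename_X, finSuccEquiv_X_succ, Polynomial.C_mul]

theorem coprime_form (P Q : MvPolynomial (Fin (n + 1)) ℚ) (hQ : Q ≠ 0) :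
    ∃ (P1 Q1 U V : MvPolynomial (Fin (n + 1)) ℚ) (d : MvPolynomial (Fin n) ℚ), Q1 ≠ 0 ∧ d ≠ 0 ∧
      P * Q1 = P1 * Q ∧ U * P1 + V * Q1 = rename Fin.succ d := by
  obtain ⟨e, he⟩ : ∃ e, e = MvPolynomial.finSuccEquiv ℚ n := ⟨_, rfl⟩
  have hq : e Q ≠ 0 := fun h => hQ (e.injective (by rw [h, map_zero]))
  obtain ⟨p1, q1, u, v, d, h1, h2, h3, h4⟩ :=
    cop_alg31 (FractionRing (MvPolynomial (Fin n) ℚ)) (e P) (e Q) hq
  refine ⟨e.symm p1, e.symm q1, e.symm u, e.symm v, d, ?_, h2, ?_, ?_⟩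
  · intro h
    exact h1 (e.symm.injective (by rw [h, map_zero]))
  · apply e.injective
    rw [map_mul, map_mul, AlgEquiv.apply_symm_apply, AlgEquiv.apply_symm_apply, h3]
  · apply e.injective
    rw [map_add, map_mul, map_mul, AlgEquiv.apply_symm_apply, AlgEquiv.apply_symm_apply,
      AlgEquiv.apply_symm_apply, AlgEquiv.apply_symm_apply, h4, he, fse_succ31]

end Pool.Agent.T59
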