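import Pool.Agent.W_2cf66e_h78.Deg

/-!
# MP_2cf66e_nt, theorem PS, leaf T2: one line
-/

set_option autoImplicit false

noncomputable section

open MeasureTheory Set Filter Topology Asymptotics

namespace Pool.Agent.T59

theorem nopoleT14 (A B : Polynomial ℝ) (hc : ∀ w : ℝ, B.eval w = 0 → A.eval w ≠ 0) (hB : B ≠ 0)
    (h : Integrable (fun x : ℝ => A.eval x / B.eval x)) (r : ℝ) : B.eval r ≠ 0 := by
  intro hr
  have hA : A.eval r ≠ 0 := hc r hr
  obtain ⟨C, hC⟩ := Polynomial.dvd_iff_isRoot.2 (show B.IsRoot r from hr)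
  have hBx : ∀ x : ℝ, B.eval x = (x - r) * C.eval x := by
    intro x
    rw [hC]
    simp
  have hev : ∀ᶠ x in 𝓝[≠] r, B.eval x ≠ 0 ∧ A.eval x ≠ 0 := by
    have h1 : ∀ᶠ x in 𝓝[≠] r, A.eval x ≠ 0 :=
      (A.continuous.continuousAt.eventually_ne hA).filter_mono nhdsWithin_le_nhds
    have h2 : ∀ᶠ x in 𝓝[≠] r, B.eval x ≠ 0 := by
      have h3 : {x : ℝ | B.eval x = 0}.Finite := by
        have h4 : {x : ℝ | B.eval x = 0} ⊆ (B.roots.toFinset : Set ℝ) := by
          intro x hx
          simp only [Finset.mem_coe, Multiset.mem_toFinset]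
          exact (Polynomial.mem_roots hB).2 hx
        exact B.roots.toFinset.finite_toSet.subset h4
      have h5 : ({x : ℝ | B.eval x = 0} \ {r}).Finite := h3.subset sdiff_subset
      have h6 : ({x : ℝ | B.eval x = 0} \ {r})ᶜ ∈ 𝓝 r :=
        h5.isClosed.isOpen_compl.mem_nhds (by simp)
      filter_upwards [mem_nhdsWithin_of_mem_nhds h6, self_mem_nhdsWithin] with x hx hne hx0
      exact hx ⟨hx0, hne⟩
    exact h2.and h1
  have hO : (fun x : ℝ => (x - r)⁻¹) =O[𝓝[≠] r] fun x : ℝ => A.eval x / B.eval x := by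
    have h1 : (fun x : ℝ => (x - r)⁻¹) =ᶠ[𝓝[≠] r]
        fun x : ℝ => (C.eval x / A.eval x) * (A.eval x / B.eval x) := by
      filter_upwards [hev] with x hx
      obtain ⟨hx1, hx2⟩ := hx
      have h3 := hBx x
      have h4 : x - r ≠ 0 := by
        intro h5
        rw [h5, zero_mul] at h3
        exact hx1 h3
      rw [div_mul_div_cancel₀ hx2, h3]
      have h6 : C.eval x ≠ 0 := by
        intro h5
        rw [h5, mul_zero] at h3
        exact hx1 h3
      field_simp
    refine h1.trans_isBigO ?_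
    have h2 : (fun x : ℝ => C.eval x / A.eval x) =O[𝓝[≠] r] fun _ : ℝ => (1 : ℝ) := by
      have h3 : ContinuousAt (fun x : ℝ => C.eval x / A.eval x) r :=
        C.continuous.continuousAt.div A.continuous.continuousAt hA
      exact (h3.tendsto.mono_left nhdsWithin_le_nhds).isBigO_one ℝ
    have h4 := h2.mul (isBigO_refl (fun x : ℝ => A.eval x / B.eval x) (𝓝[≠] r))
    simpa using h4
  have h5 := not_intervalIntegrable_of_sub_inv_isBigO_punctured (a := r - 1) (b := r + 1) hO
    (by linarith) (by rw [mem_uIcc]; left; constructor <;> linarith)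
  exact h5 (h.intervalIntegrable)

theorem line_good (A B : Polynomial ℝ) (hA : A ≠ 0) (hB : B ≠ 0)
    (hc : ∀ w : ℝ, B.eval w = 0 → A.eval w ≠ 0)
    (hi : Integrable (fun w : ℝ => A.eval w / B.eval w)) :
    (∀ w : ℝ, B.eval w ≠ 0) ∧ A.natDegree + 2 ≤ B.natDegree :=
  ⟨nopoleT14 A B hc hB hi, W_2cf66e_h78.Deg.deg_of_integrable A B hA hB hi⟩

end Pool.Agent.T59
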