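import Pool.Agent.W_2cf66e_PS.DefsT
import Pool.Agent.W_2cf66e_PS.LtA
import Pool.Agent.W_2cf66e_PS.LtB
import Pool.Agent.W_2cf66e_h23.LfG

/-!
# MP_2cf66e_nt, theorem PS, leaf T3: the normal form
-/

set_option autoImplicit false

noncomputable section

open MeasureTheory Set Filter Topology MvPolynomial

namespace Pool.Agent.T59

open Pool.Agent.WSP Pool.Agent.WSP.LfG

variable {n : ℕ}

theorem cons_tl14 (z : Fin (n + 1) → ℝ) : (Fin.cons (z 0) (tl z) : Fin (n + 1) → ℝ) = z := by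
  funext i
  refine Fin.cases rfl (fun j => rfl) i

/-- The value of a section as a sum. -/
theorem sec_sum14 (P : MvPolynomial (Fin (n + 1)) ℚ) (k : ℕ)
    (hk : (finSuccEquiv ℚ n P).natDegree < k) (x : Fin n → ℝ) (u : ℝ) :
    ∑ i ∈ Finset.range k, (aeval x ((finSuccEquiv ℚ n P).coeff i) : ℝ) * u ^ i =
      (sec P x).eval u := by
  rw [sec_hom]
  rw [Polynomial.eval_eq_sum_range' (n := k) (lt_of_le_of_lt Polynomial.natDegree_map_le hk)]
  refine Finset.sum_congr rfl fun i _ => ?_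
  rw [Polynomial.coeff_map]
  rfl

theorem nform {c : ℝ} (hc : 0 < c) (h : PI (n + 1) c) :
    ∃ (s : ℕ) (p q : ℕ → MvPolynomial (Fin n) ℚ), q (s + 2) ≠ 0 ∧
      (∀ᵐ x : Fin n → ℝ, ∀ u : ℝ, Qf s q x u ≠ 0) ∧
      (∀ᵐ z : Fin (n + 1) → ℝ, 0 ≤ Pf s p (tl z) (z 0) / Qf s q (tl z) (z 0)) ∧
      Integrable (fun z : Fin (n + 1) → ℝ => Pf s p (tl z) (z 0) / Qf s q (tl z) (z 0)) ∧
      ∫ z : Fin (n + 1) → ℝ, Pf s p (tl z) (z 0) / Qf s q (tl z) (z 0) = Real.pi * c := by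
  obtain ⟨P, Q, hPQ, hi, hint⟩ := h
  have hpos : Real.pi * c ≠ 0 := (mul_pos Real.pi_pos hc).ne'
  have hQ : Q ≠ 0 := by
    rintro rfl
    apply hpos
    rw [← hint]
    simp
  obtain ⟨P1, Q1, U, V, d, hQ1, hd, h1, h2⟩ := coprime_form P Q hQ
  have hP1 : P1 ≠ 0 := by
    rintro rfl
    rw [zero_mul] at h1
    have hP : P = 0 := (mul_eq_zero.1 h1).resolve_right hQ1
    apply hpos
    rw [← hint, hP]
    simp
  have hae : ∀ᵐ z : Fin (n + 1) → ℝ, (aeval z P : ℝ) / aeval z Q = aeval z P1 / aeval z Q1 := by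
    filter_upwards [ae_ne Q hQ, ae_ne Q1 hQ1] with z hz hz1
    have h3 := congrArg (fun p => (aeval z p : ℝ)) h1
    simp only [map_mul] at h3
    rw [div_eq_div_iff hz hz1]
    exact h3
  have hi1 : Integrable fun z : Fin (n + 1) → ℝ => (aeval z P1 : ℝ) / aeval z Q1 := hi.congr hae
  have hint1 : ∫ z : Fin (n + 1) → ℝ, (aeval z P1 : ℝ) / aeval z Q1 = Real.pi * c := by
    rw [← hint]
    exact (integral_congr_ae hae).symm
  have hfP : finSuccEquiv ℚ n P1 ≠ 0 := (EmbeddingLike.map_ne_zero_iff).2 hP1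
  have hfQ : finSuccEquiv ℚ n Q1 ≠ 0 := (EmbeddingLike.map_ne_zero_iff).2 hQ1
  -- almost every fibre
  have hfib : ∀ᵐ x : Fin n → ℝ, (∀ u : ℝ, (sec Q1 x).eval u ≠ 0) ∧
      (finSuccEquiv ℚ n P1).natDegree + 2 ≤ (finSuccEquiv ℚ n Q1).natDegree := by
    filter_upwards [ae_ne d hd, ae_ne _ (Polynomial.leadingCoeff_ne_zero.2 hfP),
      ae_ne _ (Polynomial.leadingCoeff_ne_zero.2 hfQ), (qq_int hi1).prod_right_ae]
      with x hx1 hx2 hx3 hx4
    have hPd : (sec P1 x).natDegree = (finSuccEquiv ℚ n P1).natDegree := by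
      rw [sec_hom]
      exact Polynomial.natDegree_map_of_leadingCoeff_ne_zero _ hx2
    have hQd : (sec Q1 x).natDegree = (finSuccEquiv ℚ n Q1).natDegree := by
      rw [sec_hom]
      exact Polynomial.natDegree_map_of_leadingCoeff_ne_zero _ hx3
    have hP0 : sec P1 x ≠ 0 := by
      rw [sec_hom]
      intro h0
      have := congrArg (fun p => p.coeff (finSuccEquiv ℚ n P1).natDegree) h0
      simp only [Polynomial.coeff_map, Polynomial.coeff_zero] at this
      exact hx2 this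
    have hQ0 : sec Q1 x ≠ 0 := by
      rw [sec_hom]
      intro h0
      have := congrArg (fun p => p.coeff (finSuccEquiv ℚ n Q1).natDegree) h0
      simp only [Polynomial.coeff_map, Polynomial.coeff_zero] at this
      exact hx3 this
    have hcop : ∀ w : ℝ, (sec Q1 x).eval w = 0 → (sec P1 x).eval w ≠ 0 := by
      intro w hw hw'
      rw [sec_eval] at hw hw'
      have h3 := congrArg (fun p => (aeval (Fin.cons w x : Fin (n + 1) → ℝ) p : ℝ)) h2
      simp only [map_add, map_mul, aeval_rename] at h3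
      rw [hw, hw', mul_zero, mul_zero, add_zero] at h3
      apply hx1
      exact h3.symm
    have hi2 : Integrable (fun w : ℝ => (sec P1 x).eval w / (sec Q1 x).eval w) := by
      refine hx4.congr (Eventually.of_forall fun w => ?_)
      simp only [sec_eval]
      rfl
    obtain ⟨h3, h4⟩ := line_good _ _ hP0 hQ0 hcop hi2
    rw [hPd, hQd] at h4
    exact ⟨h3, h4⟩
  obtain ⟨x0, -, hdeg⟩ := hfib.exists
  obtain ⟨s, hs⟩ : ∃ s, (finSuccEquiv ℚ n Q1).natDegree = s + 2 :=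
    ⟨(finSuccEquiv ℚ n Q1).natDegree - 2, by omega⟩
  have hPf : ∀ (x : Fin n → ℝ) (u : ℝ), Pf s (finSuccEquiv ℚ n P1).coeff x u =
      (sec P1 x).eval u := fun x u => sec_sum14 P1 (s + 1) (by omega) x u
  have hQf : ∀ (x : Fin n → ℝ) (u : ℝ), Qf s (finSuccEquiv ℚ n Q1).coeff x u =
      (sec Q1 x).eval u := fun x u => sec_sum14 Q1 (s + 3) (by omega) x u
  have hq : ∀ z : Fin (n + 1) → ℝ, Pf s (finSuccEquiv ℚ n P1).coeff (tl z) (z 0) /
      Qf s (finSuccEquiv ℚ n Q1).coeff (tl z) (z 0) = (aeval z P1 : ℝ) / aeval z Q1 := by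
    intro z
    rw [hPf, hQf, sec_eval, sec_eval, cons_tl14]
  refine ⟨s, (finSuccEquiv ℚ n P1).coeff, (finSuccEquiv ℚ n Q1).coeff, ?_, ?_, ?_, ?_, ?_⟩
  · rw [← hs]
    exact Polynomial.leadingCoeff_ne_zero.2 hfQ
  · filter_upwards [hfib] with x hx u
    rw [hQf]
    exact hx.1 u
  · filter_upwards [hae] with z hz
    rw [hq, ← hz]
    exact div_nonneg (hPQ z).1 (hPQ z).2
  · simp only [hq]
    exact hi1
  · simp only [hq]
    exact hint1

end Pool.Agent.T59
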