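import Pool.Agent.W_2cf66e_h57.Grid57

/-!
# MP_2cf66e_nt, theorem PS, leaves T7 and T8: strict positivity and integer coefficients
(helper57)
-/

set_option autoImplicit false

noncomputable section

open MeasureTheory Set Filter Topology MvPolynomial

namespace Pool.Agent.T59

open Pool.Agent.WSP

theorem rf_shift57 {m : ℕ} {G : (Fin m → ℝ) → ℝ} (hG : RF G) (v : Fin m → ℚ) :
    RF (fun z => G (fun i => z i - (v i : ℝ))) := by
  obtain ⟨P, Q, hQ, h⟩ := hG
  exact ⟨shf57 v P, shf57 v Q, fun z => by rw [shf_eval57]; exact hQ _,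
    fun z => by rw [shf_eval57, shf_eval57]; exact h _⟩

/-! T7 (LtG.lean): average over the grid `{0, .., d}^m`
(`MvPolynomial.eq_zero_of_eval_zero_at_prod_finset` on the sets `{z i - j | j ≤ d}`) -/
theorem strict {m : ℕ} (G : (Fin m → ℝ) → ℝ) (hG : RF G) (h0 : ∀ z, 0 ≤ G z)
    (h1 : ∀ z, G z ≤ 1 / 2) (hi : Integrable G) (hp : 0 < ∫ z, G z) :
    ∃ G' : (Fin m → ℝ) → ℝ, RF G' ∧ (∀ z, 0 < G' z ∧ G' z ≤ 1 / 2) ∧ Integrable G' ∧
      ∫ z, G' z = ∫ z, G z := by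
  classical
  obtain ⟨P, Q, hQ, h⟩ := id hG
  have hP : P ≠ 0 := by
    rintro rfl
    have h2 : G = fun _ => 0 := by
      funext z
      rw [h]
      simp
    rw [h2] at hp
    simp at hp
  set V := Fin m → Fin (P.totalDegree + 1) with hV
  set w : V → Fin m → ℚ := fun v i => ((v i : ℕ) : ℚ) with hw
  have hcard : (0 : ℝ) < (Fintype.card V : ℝ) := by
    exact_mod_cast Fintype.card_pos
  have hsh : ∀ v : V, Integrable (fun z : Fin m → ℝ => G (fun i => z i - (w v i : ℝ))) ∧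
      ∫ z : Fin m → ℝ, G (fun i => z i - (w v i : ℝ)) = ∫ z, G z := by
    intro v
    have e : (fun z : Fin m → ℝ => G (fun i => z i - (w v i : ℝ))) = fun z : Fin m → ℝ =>
        G (z - fun i => (w v i : ℝ)) := rfl
    rw [e]
    exact ⟨hi.comp_sub_right _, integral_sub_right_eq_self G (fun i => (w v i : ℝ))⟩
  refine ⟨fun z => (Fintype.card V : ℝ)⁻¹ * ∑ v : V, G (fun i => z i - (w v i : ℝ)),
    ?_, fun z => ⟨?_, ?_⟩, ?_, ?_⟩
  · have h2 := (RF.const (ι := Fin m) ((Fintype.card V : ℚ)⁻¹)).mul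
      (RF.sum (Finset.univ : Finset V) (f := fun v z => G (fun i => z i - (w v i : ℝ)))
        fun v => rf_shift57 hG (w v))
    refine h2.congr fun z => ?_
    push_cast
    rfl
  · refine mul_pos (inv_pos.2 hcard) ?_
    obtain ⟨v, hv⟩ := grid_ne57 P hP z
    refine Finset.sum_pos' (fun u _ => h0 _) ⟨v, Finset.mem_univ v, ?_⟩
    refine lt_of_le_of_ne (h0 _) (Ne.symm ?_)
    rw [h]
    refine div_ne_zero ?_ (hQ _).ne'
    simp only [hw]
    push_cast
    exact hv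
  · rw [inv_mul_le_iff₀ hcard]
    have h4 : ∑ v : V, G (fun i => z i - (w v i : ℝ)) ≤ ∑ v : V, (1 / 2 : ℝ) :=
      Finset.sum_le_sum fun v _ => h1 _
    rw [Finset.sum_const, nsmul_eq_mul, Finset.card_univ] at h4
    exact h4
  · exact (integrable_finsetSum _ fun v _ => (hsh v).1).const_mul _
  · rw [integral_const_mul, integral_finsetSum _ fun v _ => (hsh v).1]
    simp only [(hsh _).2]
    rw [Finset.sum_const, nsmul_eq_mul, Finset.card_univ, ← mul_assoc,
      inv_mul_cancel₀ hcard.ne', one_mul]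

/-! T8 (LtH.lean): integer coefficients -/
theorem clear_strict {m : ℕ} (G : (Fin m → ℝ) → ℝ) (hG : RF G)
    (h : ∀ z, 0 < G z ∧ G z ≤ 1 / 2) : ∃ A B : MvPolynomial (Fin m) ℤ, ∀ z : Fin m → ℝ,
      0 < (aeval z A : ℝ) ∧ 2 * (aeval z A : ℝ) ≤ aeval z B ∧
        G z = (aeval z A : ℝ) / aeval z B := by
  obtain ⟨P, Q, hQ, h'⟩ := hG
  obtain ⟨A, B, c, hc, hAB⟩ := clr_frac57 P Q
  refine ⟨A, B, fun z => ?_⟩
  have h1 := h z
  rw [h'] at h1
  have h2 : 0 < (aeval z P : ℝ) := (div_pos_iff_of_pos_right (hQ z)).1 h1.1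
  have h3 : (aeval z P : ℝ) ≤ 1 / 2 * aeval z Q := (div_le_iff₀ (hQ z)).1 h1.2
  rw [(hAB z).1, (hAB z).2]
  refine ⟨mul_pos hc h2, ?_, ?_⟩
  · have := mul_le_mul_of_nonneg_left h3 hc.le
    linarith
  · rw [h' z, mul_div_mul_left _ _ hc.ne']

end Pool.Agent.T59
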